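import Pool.Agent.H39.Ldm
import Pool.Agent.Results.MP_6c3374_co.PolyUpper

namespace Pool.Agent.H39

open Pool.Agent.Results.MP_6c3374_co.PolyUpper

lemma cr_of_collinear {a b c : Plane} (h : Collinear ℝ {a, b, c}) : cr a b c = 0 := by
  rw [collinear_iff_of_mem (p₀ := a) (by simp)] at h
  obtain ⟨v, hv⟩ := h
  obtain ⟨t1, h1⟩ := hv b (by simp)
  obtain ⟨t2, h2⟩ := hv c (by simp)
  have b0 : b 0 = t1 * v 0 + a 0 := by rw [h1]; simp
  have b1 : b 1 = t1 * v 1 + a 1 := by rw [h1]; simp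
  have c0 : c 0 = t2 * v 0 + a 0 := by rw [h2]; simp
  have c1 : c 1 = t2 * v 1 + a 1 := by rw [h2]; simp
  unfold cr
  rw [b0, b1, c0, c1]
  ring

/-- A point above the segment `p1 p2` and below the segment `q1 q2` is in the hull. -/
lemma hull_mem {C : Set Plane} (hC : Convex ℝ C) {p1 p2 q1 q2 y : Plane}
    (hp1 : p1 ∈ C) (hp2 : p2 ∈ C) (hq1 : q1 ∈ C) (hq2 : q2 ∈ C)
    (h1 : p1 0 < y 0) (h2 : y 0 < p2 0) (h3 : q1 0 < y 0) (h4 : y 0 < q2 0)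
    (h5 : cr p1 y p2 < 0) (h6 : 0 < cr q1 y q2) : y ∈ C := by
  unfold cr at h5 h6
  have hd1 : 0 < p2 0 - p1 0 := by linarith
  have hd2 : 0 < q2 0 - q1 0 := by linarith
  -- the two points on the vertical line
  set t := (y 0 - p1 0) / (p2 0 - p1 0) with ht
  set w := (y 0 - q1 0) / (q2 0 - q1 0) with hw
  have ht0 : 0 ≤ t := div_nonneg (by linarith) hd1.le
  have ht1 : 0 ≤ 1 - t := by
    rw [ht, sub_nonneg, div_le_one hd1]; linarith
  have hw0 : 0 ≤ w := div_nonneg (by linarith) hd2.le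
  have hw1 : 0 ≤ 1 - w := by
    rw [hw, sub_nonneg, div_le_one hd2]; linarith
  have m1 : (1 - t) • p1 + t • p2 ∈ C := hC hp1 hp2 ht1 ht0 (by ring)
  have m2 : (1 - w) • q1 + w • q2 ∈ C := hC hq1 hq2 hw1 hw0 (by ring)
  set P := (1 - t) • p1 + t • p2 with hP
  set R := (1 - w) • q1 + w • q2 with hR
  have hP0 : P 0 = y 0 := by
    rw [hP]; simp; rw [ht]; field_simp; ring
  have hR0 : R 0 = y 0 := by
    rw [hR]; simp; rw [hw]; field_simp; ring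
  have hP1 : P 1 < y 1 := by
    have e : (P 1 - y 1) * (p2 0 - p1 0) =
        (y 0 - p1 0) * (p2 1 - p1 1) - (y 1 - p1 1) * (p2 0 - p1 0) := by
      rw [hP]; simp; rw [ht]; field_simp; ring
    have : (P 1 - y 1) * (p2 0 - p1 0) < 0 := by rw [e]; exact h5
    by_contra hcon
    push Not at hcon
    have := mul_nonneg (sub_nonneg.mpr hcon) hd1.le
    linarith
  have hR1 : y 1 < R 1 := by
    have e : (R 1 - y 1) * (q2 0 - q1 0) =
        (y 0 - q1 0) * (q2 1 - q1 1) - (y 1 - q1 1) * (q2 0 - q1 0) := by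
      rw [hR]; simp; rw [hw]; field_simp; ring
    have : 0 < (R 1 - y 1) * (q2 0 - q1 0) := by rw [e]; exact h6
    by_contra hcon
    push Not at hcon
    have := mul_nonneg (sub_nonneg.mpr hcon) hd2.le
    linarith
  have hd3 : 0 < R 1 - P 1 := by linarith
  set z := (y 1 - P 1) / (R 1 - P 1) with hz
  have hz0 : 0 ≤ z := div_nonneg (by linarith) hd3.le
  have hz1 : 0 ≤ 1 - z := by
    rw [hz, sub_nonneg, div_le_one hd3]; linarith
  have m3 : (1 - z) • P + z • R ∈ C := hC m1 m2 hz1 hz0 (by ring)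
  have : (1 - z) • P + z • R = y := by
    ext i
    fin_cases i
    · show ((1 - z) • P + z • R) 0 = y 0
      simp only [PiLp.add_apply, PiLp.smul_apply, smul_eq_mul]
      rw [hP0, hR0]; ring
    · show ((1 - z) • P + z • R) 1 = y 1
      simp only [PiLp.add_apply, PiLp.smul_apply, smul_eq_mul]
      have : (1 - z) * P 1 + z * R 1 = P 1 + z * (R 1 - P 1) := by ring
      rw [this, hz, div_mul_cancel₀ _ hd3.ne']
      ring
  rw [← this]
  exact m3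

/-- Sorting by a real key. -/
lemma sort_key {α : Type} [Nonempty α] (X : α → ℝ) (T : Finset α) (hinj : Function.Injective X) :
    ∃ s : ℕ → α, (∀ i < T.card, s i ∈ T) ∧ (∀ i j, i < j → j < T.card → X (s i) < X (s j)) := by
  classical
  have hcard : (T.image X).card = T.card := Finset.card_image_of_injective _ hinj
  have h1 : ∀ i : ℕ, ∀ h : i < T.card, ∃ x ∈ T, X x = (T.image X).orderEmbOfFin hcard ⟨i, h⟩ := by
    intro i h
    have := Finset.orderEmbOfFin_mem (T.image X) hcard ⟨i, h⟩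
    rw [Finset.mem_image] at this
    exact this
  choose! s hs1 hs2 using h1
  refine ⟨s, fun i hi => hs1 i hi, fun i j hij hj => ?_⟩
  rw [hs2 i (by omega), hs2 j hj]
  exact (Finset.orderEmbOfFin (T.image X) hcard).strictMono (by simpa using hij)

section pts

variable {L : Type} [Fintype L]

/-- The abscissa of a leaf. -/
noncomputable def px (τ : L → ℕ) (ε : ℝ) (x : L → Bool) : ℝ := ∑ ℓ, if x ℓ then ε ^ τ ℓ else 0

/-- The ordinate of a leaf. -/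
noncomputable def py (τ θ : L → ℕ) (ε : ℝ) (x : L → Bool) : ℝ :=
  ∑ ℓ, if x ℓ then ε ^ τ ℓ * θ ℓ else 0

/-- The point of a leaf. -/
noncomputable def pt (τ θ : L → ℕ) (ε : ℝ) (x : L → Bool) : Plane :=
  !₂[px τ ε x, py τ θ ε x]

lemma est (τ : L → ℕ) (hτ : Function.Injective τ) (θ : L → ℝ) (Θ : ℝ) (hθ0 : ∀ ℓ, 0 ≤ θ ℓ)
    (hθ : ∀ ℓ, θ ℓ ≤ Θ)
    (ε : ℝ) (h0 : 0 < ε) (h1 : ε ≤ 1) {x y : L → Bool} {ℓ : L} (h : Df τ x y ℓ) :
    |(∑ m, if y m then ε ^ τ m * θ m else 0) - (∑ m, if x m then ε ^ τ m * θ m else 0)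
      - ε ^ τ ℓ * θ ℓ| ≤ ε ^ τ ℓ * (Fintype.card L * ε * Θ) := by
  classical
  rw [← Finset.sum_sub_distrib]
  have hΘ : 0 ≤ Θ := (hθ0 ℓ).trans (hθ ℓ)
  have e1 : ε ^ τ ℓ * θ ℓ = ∑ m, if m = ℓ then ε ^ τ m * θ m else 0 := by
    rw [Finset.sum_ite_eq' Finset.univ ℓ]
    simp
  rw [e1, ← Finset.sum_sub_distrib]
  refine (Finset.abs_sum_le_sum_abs _ _).trans ?_
  have hb : ∀ m ∈ (Finset.univ : Finset L),
      |(if y m then ε ^ τ m * θ m else 0) - (if x m then ε ^ τ m * θ m else 0)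
      - (if m = ℓ then ε ^ τ m * θ m else 0)| ≤ ε ^ τ ℓ * (ε * Θ) := by
    intro m _
    have hpos : 0 ≤ ε ^ τ ℓ * (ε * Θ) := by positivity
    by_cases hm : m = ℓ
    · subst hm
      rw [h.1, h.2.1]
      simp [hpos]
    · rw [if_neg hm, sub_zero]
      rcases lt_trichotomy (τ m) (τ ℓ) with h2 | h2 | h2
      · rw [h.2.2 m h2, sub_self, abs_zero]
        exact hpos
      · exact absurd (hτ h2) hm
      · have h3 : ε ^ τ m ≤ ε ^ (τ ℓ + 1) := pow_le_pow_of_le_one h0.le h1 h2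
        have h4 : ε ^ τ m * θ m ≤ ε ^ τ ℓ * (ε * Θ) := by
          calc ε ^ τ m * θ m ≤ ε ^ (τ ℓ + 1) * Θ :=
                mul_le_mul h3 (hθ m) (hθ0 m) (by positivity)
            _ = ε ^ τ ℓ * (ε * Θ) := by ring
        have h5 : 0 ≤ ε ^ τ m * θ m := mul_nonneg (by positivity) (hθ0 m)
        rw [abs_le]
        split_ifs <;> constructor <;> linarith
  refine (Finset.sum_le_sum hb).trans ?_
  rw [Finset.sum_const, Finset.card_univ, nsmul_eq_mul]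
  apply le_of_eq
  ring

lemma scal {a d η : ℝ} (ha : 0 < a) (h : |d| ≤ a * η) : ∃ α, d = a * α ∧ |α| ≤ η := by
  refine ⟨d / a, by field_simp, ?_⟩
  rw [abs_div, abs_of_pos ha, div_le_iff₀ ha]
  linarith

lemma abs_mul_le {x y A B : ℝ} (hx : |x| ≤ A) (hy : |y| ≤ B) : |x * y| ≤ A * B := by
  rw [abs_mul]
  exact mul_le_mul hx hy (abs_nonneg _) ((abs_nonneg _).trans hx)

/-- The bracket has the sign of `q - p`. -/
lemma bracket_pos {p q Θ η α1 β1 α2 β2 : ℝ} (hp0 : 0 ≤ p) (hq0 : 0 ≤ q) (hp : p ≤ Θ) (hq : q ≤ Θ)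
    (hpq : p + 1 ≤ q) (hη0 : 0 ≤ η) (hη : η * (2 * Θ + 4) < 1)
    (h1 : |α1| ≤ η) (h2 : |β1| ≤ η) (h3 : |α2| ≤ η) (h4 : |β2| ≤ η) :
    0 < (1 + α1) * (q + β2) - (p + β1) * (1 + α2) := by
  have hpa : |p| ≤ Θ := by rw [abs_of_nonneg hp0]; exact hp
  have hqa : |q| ≤ Θ := by rw [abs_of_nonneg hq0]; exact hq
  have a1 := abs_mul_le h1 hqa
  have a2 := abs_mul_le h1 h4
  have a3 := abs_mul_le hpa h3
  have a4 := abs_mul_le h2 h3
  rw [abs_le] at h2 h4 a1 a2 a3 a4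
  have hη1 : η ≤ 1 := by nlinarith
  have hηη : η * η ≤ η := by nlinarith
  nlinarith

lemma bracket_neg {p q Θ η α1 β1 α2 β2 : ℝ} (hp0 : 0 ≤ p) (hq0 : 0 ≤ q) (hp : p ≤ Θ) (hq : q ≤ Θ)
    (hpq : q + 1 ≤ p) (hη0 : 0 ≤ η) (hη : η * (2 * Θ + 4) < 1)
    (h1 : |α1| ≤ η) (h2 : |β1| ≤ η) (h3 : |α2| ≤ η) (h4 : |β2| ≤ η) :
    (1 + α1) * (q + β2) - (p + β1) * (1 + α2) < 0 := by
  have := bracket_pos hq0 hp0 hq hp hpq hη0 hη h3 h4 h1 h2
  linarith

/-- `ε` is small enough for the structure. -/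
structure Small (τ θ : L → ℕ) (Θ : ℕ) (ε : ℝ) : Prop where
  pos : 0 < ε
  le_one : ε ≤ 1
  bd : ∀ ℓ, θ ℓ ≤ Θ
  sm : (Fintype.card L * ε * (Θ + 1)) * (2 * Θ + 4) < 1

lemma exists_small (τ θ : L → ℕ) : ∃ Θ ε, Small τ θ Θ ε := by
  obtain ⟨Θ, hΘ⟩ := exists_bound θ
  have hpos : (0 : ℝ) < (Fintype.card L + 1) * (Θ + 1) * (2 * Θ + 4) := by positivity
  refine ⟨Θ, 1 / ((Fintype.card L + 1) * (Θ + 1) * (2 * Θ + 4)), by positivity, ?_,
    fun ℓ => (hΘ ℓ).le, ?_⟩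
  · rw [div_le_one hpos]
    have h1 : (1 : ℝ) ≤ Fintype.card L + 1 := by
      have : (0 : ℝ) ≤ Fintype.card L := by positivity
      linarith
    have h2 : (1 : ℝ) ≤ (Θ : ℝ) + 1 := by
      have : (0 : ℝ) ≤ Θ := by positivity
      linarith
    have h3 : (1 : ℝ) ≤ 2 * (Θ : ℝ) + 4 := by
      have : (0 : ℝ) ≤ Θ := by positivity
      linarith
    exact one_le_mul_of_one_le_of_one_le (one_le_mul_of_one_le_of_one_le h1 h2) h3
  · rw [mul_one_div, div_mul_eq_mul_div, div_mul_eq_mul_div, div_lt_one hpos]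
    have h1 : (0 : ℝ) < (Θ + 1) * (2 * Θ + 4) := by positivity
    nlinarith

lemma px_est {τ θ : L → ℕ} (hτ : Function.Injective τ) {Θ : ℕ} {ε : ℝ} (hs : Small τ θ Θ ε)
    {x y : L → Bool} {ℓ : L} (h : Df τ x y ℓ) :
    ∃ α, px τ ε y - px τ ε x = ε ^ τ ℓ * (1 + α) ∧ |α| ≤ Fintype.card L * ε * (Θ + 1) := by
  have h1 := est τ hτ (fun _ => 1) 1 (fun _ => zero_le_one) (fun _ => le_rfl) ε hs.pos hs.le_one h
  simp only [mul_one] at h1
  obtain ⟨α, h2, h3⟩ := scal (pow_pos hs.pos (τ ℓ)) h1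
  refine ⟨α, ?_, ?_⟩
  · unfold px; linarith
  · refine h3.trans ?_
    have h4 : 0 ≤ (Fintype.card L : ℝ) * ε := mul_nonneg (by positivity) hs.pos.le
    have h5 : (0 : ℝ) ≤ Θ := by positivity
    nlinarith

lemma py_est {τ θ : L → ℕ} (hτ : Function.Injective τ) {Θ : ℕ} {ε : ℝ} (hs : Small τ θ Θ ε)
    {x y : L → Bool} {ℓ : L} (h : Df τ x y ℓ) :
    ∃ β, py τ θ ε y - py τ θ ε x = ε ^ τ ℓ * (θ ℓ + β) ∧ |β| ≤ Fintype.card L * ε * (Θ + 1) := by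
  have h1 := est τ hτ (fun ℓ => (θ ℓ : ℝ)) Θ (fun _ => by positivity)
    (fun ℓ => by exact_mod_cast hs.bd ℓ) ε hs.pos hs.le_one h
  obtain ⟨β, h2, h3⟩ := scal (pow_pos hs.pos (τ ℓ)) h1
  refine ⟨β, ?_, ?_⟩
  · unfold py; linarith
  · refine h3.trans ?_
    have h4 : 0 ≤ (Fintype.card L : ℝ) * ε := mul_nonneg (by positivity) hs.pos.le
    nlinarith

lemma eta_lt_one {τ θ : L → ℕ} {Θ : ℕ} {ε : ℝ} (hs : Small τ θ Θ ε) :
    (Fintype.card L * ε * (Θ + 1)) < 1 := by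
  have h1 := hs.sm
  have h0 : 0 ≤ (Fintype.card L * ε * (Θ + 1)) := by
    have := hs.pos
    positivity
  have h5 : (0 : ℝ) ≤ Θ := by positivity
  nlinarith

lemma px_lt {τ θ : L → ℕ} (hτ : Function.Injective τ) {Θ : ℕ} {ε : ℝ} (hs : Small τ θ Θ ε)
    {x y : L → Bool} {ℓ : L} (h : Df τ x y ℓ) : px τ ε x < px τ ε y := by
  obtain ⟨α, h1, h2⟩ := px_est hτ hs h
  have h3 := eta_lt_one hs
  rw [abs_le] at h2
  have h4 : 0 < ε ^ τ ℓ * (1 + α) := mul_pos (pow_pos hs.pos _) (by linarith)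
  linarith

lemma pt_cr (τ θ : L → ℕ) (ε : ℝ) (x y z : L → Bool) :
    cr (pt τ θ ε x) (pt τ θ ε y) (pt τ θ ε z) =
    (px τ ε y - px τ ε x) * (py τ θ ε z - py τ θ ε y) -
    (py τ θ ε y - py τ θ ε x) * (px τ ε z - px τ ε y) := by
  unfold cr pt
  simp
  ring

lemma orient_pos {τ θ : L → ℕ} (hτ : Function.Injective τ) {Θ : ℕ} {ε : ℝ} (hs : Small τ θ Θ ε)
    {x y z : L → Bool} {ℓ m : L} (h : Df τ x y ℓ) (h' : Df τ y z m) (hθ : θ ℓ < θ m) :
    0 < cr (pt τ θ ε x) (pt τ θ ε y) (pt τ θ ε z) := by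
  obtain ⟨α1, a1, a2⟩ := px_est hτ hs h
  obtain ⟨β1, b1, b2⟩ := py_est hτ hs h
  obtain ⟨α2, c1, c2⟩ := px_est hτ hs h'
  obtain ⟨β2, d1, d2⟩ := py_est hτ hs h'
  rw [pt_cr, a1, b1, c1, d1]
  have hb := bracket_pos (p := (θ ℓ : ℝ)) (q := (θ m : ℝ)) (Θ := (Θ : ℝ)) (by positivity)
    (by positivity) (by exact_mod_cast hs.bd ℓ) (by exact_mod_cast hs.bd m)
    (by exact_mod_cast hθ) (by have := hs.pos; positivity) hs.sm a2 b2 c2 d2
  have e : ε ^ τ ℓ * (1 + α1) * (ε ^ τ m * (↑(θ m) + β2)) -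
      ε ^ τ ℓ * (↑(θ ℓ) + β1) * (ε ^ τ m * (1 + α2)) =
      (ε ^ τ ℓ * ε ^ τ m) * ((1 + α1) * (↑(θ m) + β2) - (↑(θ ℓ) + β1) * (1 + α2)) := by ring
  rw [e]
  exact mul_pos (mul_pos (pow_pos hs.pos _) (pow_pos hs.pos _)) hb

lemma orient_neg {τ θ : L → ℕ} (hτ : Function.Injective τ) {Θ : ℕ} {ε : ℝ} (hs : Small τ θ Θ ε)
    {x y z : L → Bool} {ℓ m : L} (h : Df τ x y ℓ) (h' : Df τ y z m) (hθ : θ m < θ ℓ) :
    cr (pt τ θ ε x) (pt τ θ ε y) (pt τ θ ε z) < 0 := by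
  obtain ⟨α1, a1, a2⟩ := px_est hτ hs h
  obtain ⟨β1, b1, b2⟩ := py_est hτ hs h
  obtain ⟨α2, c1, c2⟩ := px_est hτ hs h'
  obtain ⟨β2, d1, d2⟩ := py_est hτ hs h'
  rw [pt_cr, a1, b1, c1, d1]
  have hb := bracket_neg (p := (θ ℓ : ℝ)) (q := (θ m : ℝ)) (Θ := (Θ : ℝ)) (by positivity)
    (by positivity) (by exact_mod_cast hs.bd ℓ) (by exact_mod_cast hs.bd m)
    (by exact_mod_cast hθ) (by have := hs.pos; positivity) hs.sm a2 b2 c2 d2
  have e : ε ^ τ ℓ * (1 + α1) * (ε ^ τ m * (↑(θ m) + β2)) -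
      ε ^ τ ℓ * (↑(θ ℓ) + β1) * (ε ^ τ m * (1 + α2)) =
      (ε ^ τ ℓ * ε ^ τ m) * ((1 + α1) * (↑(θ m) + β2) - (↑(θ ℓ) + β1) * (1 + α2)) := by ring
  rw [e]
  exact mul_neg_of_pos_of_neg (mul_pos (pow_pos hs.pos _) (pow_pos hs.pos _)) hb

lemma exists_Df {τ : L → ℕ} (hτ : Function.Injective τ) {x y : L → Bool} (h : x ≠ y) :
    ∃ ℓ, Df τ x y ℓ ∨ Df τ y x ℓ := by
  classical
  have hne : (Finset.univ.filter (fun ℓ => x ℓ ≠ y ℓ)).Nonempty := by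
    by_contra hcon
    rw [Finset.not_nonempty_iff_eq_empty, Finset.filter_eq_empty_iff] at hcon
    apply h
    funext ℓ
    have := hcon (Finset.mem_univ ℓ)
    simpa using this
  obtain ⟨ℓ, hℓ, hmin⟩ := Finset.exists_min_image _ τ hne
  simp only [Finset.mem_filter, Finset.mem_univ, true_and] at hℓ hmin
  have heq : ∀ m, τ m < τ ℓ → x m = y m := by
    intro m hm
    by_contra hcon
    have := hmin m hcon
    omega
  refine ⟨ℓ, ?_⟩
  rcases hx : x ℓ with _ | _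
  · left
    refine ⟨hx, ?_, heq⟩
    rcases hy : y ℓ with _ | _
    · exact absurd (hx.trans hy.symm) hℓ
    · rfl
  · right
    refine ⟨?_, hx, fun m hm => (heq m hm).symm⟩
    rcases hy : y ℓ with _ | _
    · rfl
    · exact absurd (hx.trans hy.symm) hℓ

lemma px_inj {τ θ : L → ℕ} (hτ : Function.Injective τ) {Θ : ℕ} {ε : ℝ} (hs : Small τ θ Θ ε) :
    Function.Injective (px τ ε : (L → Bool) → ℝ) := by
  intro x y hxy
  by_contra hne
  obtain ⟨ℓ, h | h⟩ := exists_Df hτ hne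
  · have := px_lt hτ hs h; linarith
  · have := px_lt hτ hs h; linarith

lemma Df_of_lt {τ θ : L → ℕ} (hτ : Function.Injective τ) {Θ : ℕ} {ε : ℝ} (hs : Small τ θ Θ ε)
    {x y : L → Bool} (h : px τ ε x < px τ ε y) : ∃ ℓ, Df τ x y ℓ := by
  have hne : x ≠ y := by rintro rfl; exact lt_irrefl _ h
  obtain ⟨ℓ, h1 | h1⟩ := exists_Df hτ hne
  · exact ⟨ℓ, h1⟩
  · have := px_lt hτ hs h1; linarith

lemma pt_inj {τ θ : L → ℕ} (hτ : Function.Injective τ) {Θ : ℕ} {ε : ℝ} (hs : Small τ θ Θ ε) :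
    Function.Injective (pt τ θ ε) := by
  intro x y hxy
  apply px_inj hτ hs
  have := congrArg (fun p : Plane => p 0) hxy
  simpa [pt] using this

lemma pt_zero (τ θ : L → ℕ) (ε : ℝ) (x : L → Bool) : (pt τ θ ε x) 0 = px τ ε x := by
  simp [pt]

/-- The orientation of three leaves in increasing order is not zero. -/
lemma cr_ne {τ θ : L → ℕ} (hτ : Function.Injective τ) (hθ : Function.Injective θ) {Θ : ℕ} {ε : ℝ}
    (hs : Small τ θ Θ ε)
    {x y z : L → Bool} (h : px τ ε x < px τ ε y) (h' : px τ ε y < px τ ε z) :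
    cr (pt τ θ ε x) (pt τ θ ε y) (pt τ θ ε z) ≠ 0 := by
  obtain ⟨ℓ, h1⟩ := Df_of_lt hτ hs h
  obtain ⟨m, h2⟩ := Df_of_lt hτ hs h'
  rcases lt_trichotomy (θ ℓ) (θ m) with h3 | h3 | h3
  · exact (orient_pos hτ hs h1 h2 h3).ne'
  · exfalso
    have e := hθ h3
    have a := h1.2.1
    rw [e, h2.1] at a
    exact absurd a (by decide)
  · exact (orient_neg hτ hs h1 h2 h3).ne

end pts

end Pool.Agent.H39
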