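import Mathlib

namespace Pool.Agent.H39

/-! ### Bit reversal -/

/-- Reversal of the lowest `h` binary digits of `p`. -/
def rev : ℕ → ℕ → ℕ
  | 0, _ => 0
  | h + 1, p => (p % 2) * 2 ^ h + rev h (p / 2)

lemma rev_lt (h p : ℕ) : rev h p < 2 ^ h := by
  induction h generalizing p with
  | zero => simp [rev]
  | succ h ih =>
    have h1 := ih (p / 2)
    have h2 : (p % 2) * 2 ^ h ≤ 1 * 2 ^ h := Nat.mul_le_mul_right _ (by omega)
    rw [rev, pow_succ]
    omega

lemma rev_add (m h p : ℕ) : rev (m + h) p = rev m p * 2 ^ h + rev h (p / 2 ^ m) := by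
  induction m generalizing p with
  | zero => simp [rev]
  | succ m ih =>
    have e : m + 1 + h = (m + h) + 1 := by ring
    rw [e, rev, ih (p / 2), rev, Nat.div_div_eq_div_mul]
    have e2 : 2 * 2 ^ m = 2 ^ (m + 1) := by ring
    rw [e2]
    ring

lemma rev_mod {m p p' : ℕ} (h : rev m p = rev m p') : p % 2 ^ m = p' % 2 ^ m := by
  induction m generalizing p p' with
  | zero => simp [Nat.mod_one]
  | succ m ih =>
    rw [rev, rev] at h
    have h1 := rev_lt m (p / 2)
    have h2 := rev_lt m (p' / 2)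
    have h3 : p % 2 = p' % 2 := by
      rcases Nat.mod_two_eq_zero_or_one p with a | a <;>
      rcases Nat.mod_two_eq_zero_or_one p' with b | b <;>
      rw [a, b] at h ⊢ <;> omega
    have h4 : rev m (p / 2) = rev m (p' / 2) := by
      rw [h3] at h; omega
    have h5 := ih h4
    rw [pow_succ, mul_comm, Nat.mod_mul, Nat.mod_mul, h3, h5]

lemma rev_inj {h p p' : ℕ} (hp : p < 2 ^ h) (hp' : p' < 2 ^ h) (e : rev h p = rev h p') :
    p = p' := by
  have := rev_mod e
  rwa [Nat.mod_eq_of_lt hp, Nat.mod_eq_of_lt hp'] at this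

lemma rev_le_of_lt {m h p p' : ℕ} (hm : m ≤ h) (hlt : rev h p < rev h p') :
    rev m p ≤ rev m p' := by
  obtain ⟨k, rfl⟩ := Nat.exists_eq_add_of_le hm
  rw [rev_add, rev_add] at hlt
  by_contra hc
  push Not at hc
  have h1 := rev_lt k (p' / 2 ^ m)
  have h2 : (rev m p' + 1) * 2 ^ k ≤ rev m p * 2 ^ k := Nat.mul_le_mul_right _ hc
  have h3 : (rev m p' + 1) * 2 ^ k = rev m p' * 2 ^ k + 2 ^ k := by ring
  omega

/-- potential for increasing chains -/
def pu (m p : ℕ) : ℤ := (p / 2 ^ m : ℕ) + (rev m p : ℕ)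

/-- potential for decreasing chains -/
def pd (m p : ℕ) : ℤ := (rev m p : ℕ) - (p / 2 ^ m : ℕ)

lemma pu_lt {m h p p' : ℕ} (hm : m ≤ h) (hp : p < p') (hlt : rev h p < rev h p') :
    pu m p < pu m p' := by
  have h1 := rev_le_of_lt hm hlt
  have h2 : p / 2 ^ m ≤ p' / 2 ^ m := Nat.div_le_div_right hp.le
  rcases h1.lt_or_eq with h3 | h3
  · unfold pu; omega
  · have h4 := rev_mod h3
    have h5 : p / 2 ^ m < p' / 2 ^ m := by
      rcases h2.lt_or_eq with h6 | h6
      · exact h6
      · exfalso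
        have a := Nat.div_add_mod p (2 ^ m)
        have b := Nat.div_add_mod p' (2 ^ m)
        rw [h6, h4] at a
        omega
    unfold pu; omega

lemma pd_lt {m h p p' : ℕ} (hm : m ≤ h) (hp : p' < p) (hlt : rev h p < rev h p') :
    pd m p < pd m p' := by
  have h1 := rev_le_of_lt hm hlt
  have h2 : p' / 2 ^ m ≤ p / 2 ^ m := Nat.div_le_div_right hp.le
  rcases h1.lt_or_eq with h3 | h3
  · unfold pd; omega
  · have h4 := rev_mod h3
    have h5 : p' / 2 ^ m < p / 2 ^ m := by
      rcases h2.lt_or_eq with h6 | h6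
      · exact h6
      · exfalso
        have a := Nat.div_add_mod p (2 ^ m)
        have b := Nat.div_add_mod p' (2 ^ m)
        rw [← h6, h4] at a
        omega
    unfold pd; omega

/-! ### Good pairs -/

/-- The good pairs `(g, d)`. -/
def gp (t : ℕ → ℕ) (G Z : Finset ℕ) (l r : ℕ) : Finset (ℕ × ℕ) :=
  (G ×ˢ Finset.range (r + 1)).filter (fun x => 1 ≤ x.2 ∧ l + x.2 ≤ x.1 ∧ x.1 + x.2 ≤ r ∧
    (∀ g' ∈ G, x.1 < g' + x.2 → g' < x.1 + x.2 → t x.1 ≤ t g') ∧
    x.1 - x.2 ∉ Z ∧ x.1 + x.2 - 1 ∉ Z)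

/-- number of elements of `G` strictly between `l` and `r`. -/
def wc (G : Finset ℕ) (l r : ℕ) : ℕ := (G.filter (fun g => l < g ∧ g < r)).card

/-- number of elements of `Z` in `[l, r)`. -/
def zc (Z : Finset ℕ) (l r : ℕ) : ℕ := (Z.filter (fun g => l ≤ g ∧ g < r)).card

lemma zc_add (Z : Finset ℕ) {a b c : ℕ} (hab : a ≤ b) (hbc : b ≤ c) :
    zc Z a c = zc Z a b + zc Z b c := by
  unfold zc
  rw [← Finset.card_union_of_disjoint]
  · congr 1
    ext x
    simp only [Finset.mem_filter, Finset.mem_union]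
    constructor
    · rintro ⟨h1, h2, h3⟩
      by_cases h : x < b
      · left; exact ⟨h1, h2, h⟩
      · right; exact ⟨h1, by omega, h3⟩
    · rintro (⟨h1, h2, h3⟩ | ⟨h1, h2, h3⟩)
      · exact ⟨h1, h2, by omega⟩
      · exact ⟨h1, by omega, h3⟩
  · rw [Finset.disjoint_left]
    intro x hx hx'
    simp only [Finset.mem_filter] at hx hx'
    omega

lemma zc_mono (Z : Finset ℕ) {a b c d : ℕ} (hab : a ≤ b) (hcd : c ≤ d) :
    zc Z b c ≤ zc Z a d := by
  unfold zc
  apply Finset.card_le_card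
  intro x hx
  simp only [Finset.mem_filter] at hx ⊢
  exact ⟨hx.1, by omega, by omega⟩

lemma wc_split (G : Finset ℕ) {a b v : ℕ} (hv : v ∈ G) (hav : a < v) (hvb : v < b) :
    wc G a b = wc G a v + 1 + wc G v b := by
  unfold wc
  have h1 : G.filter (fun g => a < g ∧ g < b) =
      ((G.filter (fun g => a < g ∧ g < v)) ∪ {v}) ∪ G.filter (fun g => v < g ∧ g < b) := by
    ext x
    simp only [Finset.mem_filter, Finset.mem_union, Finset.mem_singleton]
    constructor
    · rintro ⟨h1, h2, h3⟩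
      rcases lt_trichotomy x v with h | h | h
      · left; left; exact ⟨h1, h2, h⟩
      · left; right; exact h
      · right; exact ⟨h1, h, h3⟩
    · rintro ((⟨h1, h2, h3⟩ | h) | ⟨h1, h2, h3⟩)
      · exact ⟨h1, h2, by omega⟩
      · subst h; exact ⟨hv, hav, hvb⟩
      · exact ⟨h1, by omega, h3⟩
  rw [h1, Finset.card_union_of_disjoint, Finset.card_union_of_disjoint, Finset.card_singleton]
  · rw [Finset.disjoint_singleton_right]
    simp
  · rw [Finset.disjoint_left]
    intro x hx hx'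
    simp only [Finset.mem_filter, Finset.mem_union, Finset.mem_singleton] at hx hx'
    rcases hx with hx | hx <;> omega

lemma wc_left (G : Finset ℕ) {a v : ℕ} (hav : a < v) : wc G a v + 1 ≤ v - a := by
  unfold wc
  have : G.filter (fun g => a < g ∧ g < v) ⊆ Finset.Ioo a v := by
    intro x hx
    simp only [Finset.mem_filter] at hx
    simp only [Finset.mem_Ioo]
    exact hx.2
  have h := Finset.card_le_card this
  rw [Nat.card_Ioo] at h
  omega

/-- good d's at `v`. -/
def gd (Z : Finset ℕ) (v lam : ℕ) : Finset ℕ :=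
  (Finset.Icc 1 lam).filter (fun d => v - d ∉ Z ∧ v + d - 1 ∉ Z)

lemma gd_card (Z : Finset ℕ) {v lam : ℕ} (h : lam ≤ v) :
    lam ≤ (gd Z v lam).card + zc Z (v - lam) v + zc Z v (v + lam) := by
  have h1 : Finset.Icc 1 lam ⊆ gd Z v lam ∪ ((Finset.Icc 1 lam).filter (fun d => v - d ∈ Z) ∪
      (Finset.Icc 1 lam).filter (fun d => v + d - 1 ∈ Z)) := by
    intro d hd
    simp only [gd, Finset.mem_union, Finset.mem_filter]
    tauto
  have h2 := Finset.card_le_card h1
  have h3 := Finset.card_union_le (gd Z v lam) ((Finset.Icc 1 lam).filter (fun d => v - d ∈ Z) ∪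
      (Finset.Icc 1 lam).filter (fun d => v + d - 1 ∈ Z))
  have h4 := Finset.card_union_le ((Finset.Icc 1 lam).filter (fun d => v - d ∈ Z))
      ((Finset.Icc 1 lam).filter (fun d => v + d - 1 ∈ Z))
  have h5 : ((Finset.Icc 1 lam).filter (fun d => v - d ∈ Z)).card ≤ zc Z (v - lam) v := by
    unfold zc
    apply Finset.card_le_card_of_injOn (fun d => v - d)
    · intro d hd
      simp only [Finset.coe_filter, Finset.mem_Icc, Set.mem_ofPred_eq] at hd ⊢
      exact ⟨hd.2, by omega, by omega⟩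
    · intro d hd d' hd' e
      simp only [Finset.coe_filter, Finset.mem_Icc, Set.mem_ofPred_eq] at hd hd' e
      omega
  have h6 : ((Finset.Icc 1 lam).filter (fun d => v + d - 1 ∈ Z)).card ≤ zc Z v (v + lam) := by
    unfold zc
    apply Finset.card_le_card_of_injOn (fun d => v + d - 1)
    · intro d hd
      simp only [Finset.coe_filter, Finset.mem_Icc, Set.mem_ofPred_eq] at hd ⊢
      exact ⟨hd.2, by omega, by omega⟩
    · intro d hd d' hd' e
      simp only [Finset.coe_filter, Finset.mem_Icc, Set.mem_ofPred_eq] at hd hd' e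
      omega
  rw [Nat.card_Icc] at h2
  omega

lemma gp_split (t : ℕ → ℕ) (G Z : Finset ℕ) {a b v lam : ℕ} (hv : v ∈ G) (hav : a < v) (hvb : v < b)
    (hmin : ∀ g ∈ G, a < g → g < b → t v ≤ t g) (h1 : a + lam ≤ v) (h2 : v + lam ≤ b) :
    (gp t G Z a v).card + (gp t G Z v b).card + (gd Z v lam).card ≤ (gp t G Z a b).card := by
  have e : (gd Z v lam).card = ((gd Z v lam).map ⟨fun d => (v, d), fun x y h => by simpa using h⟩).card := by
    rw [Finset.card_map]
  rw [e, ← Finset.card_union_of_disjoint, ← Finset.card_union_of_disjoint]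
  · apply Finset.card_le_card
    intro x hx
    simp only [Finset.mem_union, gp, gd, Finset.mem_filter, Finset.mem_product, Finset.mem_range,
      Finset.mem_map, Finset.mem_Icc] at hx ⊢
    rcases hx with (hx | hx) | hx
    · obtain ⟨⟨h3, h4⟩, h5, h6, h7, h8, h9, h10⟩ := hx
      exact ⟨⟨h3, by omega⟩, h5, by omega, by omega, h8, h9, h10⟩
    · obtain ⟨⟨h3, h4⟩, h5, h6, h7, h8, h9, h10⟩ := hx
      exact ⟨⟨h3, by omega⟩, h5, by omega, by omega, h8, h9, h10⟩
    · obtain ⟨d, ⟨⟨h3, h4⟩, h5, h6⟩, rfl⟩ := hx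
      refine ⟨⟨hv, ?_⟩, h3, ?_, ?_, ?_, h5, h6⟩
      · show d < b + 1
        omega
      · show a + d ≤ v
        omega
      · show v + d ≤ b
        omega
      · intro g' hg' h7 h8
        have h7' : v < g' + d := h7
        have h8' : g' < v + d := h8
        exact hmin g' hg' (by omega) (by omega)
  · rw [Finset.disjoint_left]
    intro x hx hx'
    simp only [Finset.mem_union, gp, gd, Finset.mem_filter, Finset.mem_product, Finset.mem_range,
      Finset.mem_map, Finset.mem_Icc] at hx hx'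
    obtain ⟨d, ⟨⟨h3, h4⟩, h5, h6⟩, rfl⟩ := hx'
    rcases hx with hx | hx
    · obtain ⟨_, h7, h8, h9, _⟩ := hx
      have h7' : 1 ≤ d := h7
      have h9' : v + d ≤ v := h9
      omega
    · obtain ⟨_, h7, h8, h9, _⟩ := hx
      have h7' : 1 ≤ d := h7
      have h8' : v + d ≤ v := h8
      omega
  · rw [Finset.disjoint_left]
    intro x hx hx'
    simp only [gp, Finset.mem_filter] at hx hx'
    omega

/-- Amortised analysis of the heavy path. -/
lemma amort {h m : ℕ} (hm : m ≤ h) (G Z : Finset ℕ) (j Λ : ℕ) (η : ℝ) (hη : 0 ≤ η)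
    (l r : ℕ) (hr : r ≤ 2 ^ h)
    (piece : ∀ a b, l ≤ a → a < b → b ≤ r →
      (j : ℝ) * (wc G a b) - j * η * ((b : ℝ) - a) - 10 * j * (zc Z a b) - j * Λ
        ≤ 2 * ((gp (rev h) G Z a b).card : ℝ))
    (PU PD : ℤ) (hPU : ∀ v ∈ G, l < v → v < r → pu m v ≤ PU)
    (hPD : ∀ v ∈ G, l < v → v < r → pd m v ≤ PD) :
    ∀ n a b, b - a ≤ n → l ≤ a → a < b → b ≤ r → ∀ (cL cR : ℤ) (eL eR : ℕ),
      cL ≤ PU → cR ≤ PD → (∀ v ∈ G, a < v → v < b → cL < pu m v) →
      (∀ v ∈ G, a < v → v < b → cR < pd m v) →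
      ((j : ℝ) + 1) * (wc G a b) - j * η * ((b : ℝ) - a) - (10 * j + 2) * (zc Z a b)
        - j * (Λ + 1) * (((PU : ℝ) - cL) + ((PD : ℝ) - cR))
        - 4 * (zc Z (max a eL) r) - 4 * (zc Z l (min b eR))
        - ((eL - a : ℕ) : ℝ) - ((b - eR : ℕ) : ℝ)
        ≤ 2 * ((gp (rev h) G Z a b).card : ℝ) := by
  intro n
  induction n with
  | zero => intro a b h1 h2 h3; omega
  | succ n ih =>
    intro a b hn hla hab hbr cL cR eL eR hcL hcR hL hR
    have hjK : (0 : ℝ) ≤ j * (Λ + 1) := by positivity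
    by_cases hemp : (G.filter (fun g => a < g ∧ g < b)).Nonempty
    swap
    · rw [Finset.not_nonempty_iff_eq_empty] at hemp
      have h0 : wc G a b = 0 := by unfold wc; rw [hemp]; rfl
      rw [h0]
      have h1 : (0 : ℝ) ≤ ((PU : ℝ) - cL) + ((PD : ℝ) - cR) := by
        have : (cL : ℝ) ≤ PU := by exact_mod_cast hcL
        have : (cR : ℝ) ≤ PD := by exact_mod_cast hcR
        linarith
      have h2 : (0 : ℝ) ≤ j * (Λ + 1) * (((PU : ℝ) - cL) + ((PD : ℝ) - cR)) := mul_nonneg hjK h1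
      have h3 : (0 : ℝ) ≤ j * η * ((b : ℝ) - a) := by
        have : (a : ℝ) ≤ b := by exact_mod_cast hab.le
        have : (0 : ℝ) ≤ (b : ℝ) - a := by linarith
        positivity
      have h4 : (0 : ℝ) ≤ (10 * j + 2) * (zc Z a b : ℝ) := by positivity
      have h5 : (0 : ℝ) ≤ ((gp (rev h) G Z a b).card : ℝ) := by positivity
      have h6 : (0 : ℝ) ≤ (zc Z (max a eL) r : ℝ) := by positivity
      have h7 : (0 : ℝ) ≤ (zc Z l (min b eR) : ℝ) := by positivity
      have h8 : (0 : ℝ) ≤ ((eL - a : ℕ) : ℝ) := by positivity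
      have h9 : (0 : ℝ) ≤ ((b - eR : ℕ) : ℝ) := by positivity
      simp only [Nat.cast_zero, mul_zero]
      linarith
    obtain ⟨v, hv, hvmin⟩ := Finset.exists_min_image _ (rev h) hemp
    simp only [Finset.mem_filter] at hv hvmin
    obtain ⟨hvG, hav, hvb⟩ := hv
    have hmin : ∀ g ∈ G, a < g → g < b → rev h v ≤ rev h g := fun g h1 h2 h3 =>
      hvmin g ⟨h1, h2, h3⟩
    have hstrict : ∀ g ∈ G, a < g → g < b → g ≠ v → rev h v < rev h g := by
      intro g h1 h2 h3 h4
      rcases (hmin g h1 h2 h3).lt_or_eq with h5 | h5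
      · exact h5
      · exfalso
        apply h4
        exact (rev_inj (by omega) (by omega) h5).symm
    have hwc := wc_split G hvG hav hvb
    have hzc := zc_add Z hav.le hvb.le
    have hwcR : (wc G a b : ℝ) = wc G a v + 1 + wc G v b := by exact_mod_cast hwc
    have hzcR : (zc Z a b : ℝ) = zc Z a v + zc Z v b := by exact_mod_cast hzc
    rcases le_or_gt (v - a) (b - v) with hlr | hlr
    · -- left cut
      have hsplit := gp_split (rev h) G Z (lam := v - a) hvG hav hvb hmin (by omega) (by omega)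
      have hsplitR : ((gp (rev h) G Z a v).card : ℝ) + ((gp (rev h) G Z v b).card : ℝ)
          + ((gd Z v (v - a)).card : ℝ) ≤ ((gp (rev h) G Z a b).card : ℝ) := by
        exact_mod_cast hsplit
      have hgd := gd_card Z (v := v) (lam := v - a) (by omega)
      have e1 : v - (v - a) = a := by omega
      rw [e1] at hgd
      have hpiece := piece a v hla hav (by omega)
      -- choose the new exemption
      obtain ⟨eL', heL'⟩ : ∃ eL' : ℕ, (v - a) + 4 * zc Z (max v eL') r + (eL' - v) ≤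
          2 * (gd Z v (v - a)).card + 2 * zc Z a v + 4 * zc Z (max a eL) r + (eL - a) := by
        rcases le_or_gt v eL with h1 | h1
        · refine ⟨eL, ?_⟩
          rw [max_eq_right h1, max_eq_right (by omega)]
          omega
        · by_cases h2 : 2 * zc Z v (v + (v - a)) ≤ v - a
          · refine ⟨eL, ?_⟩
            rw [max_eq_left h1.le]
            have h3 : zc Z v r ≤ zc Z (max a eL) r := zc_mono Z (by omega) le_rfl
            omega
          · refine ⟨v + (v - a), ?_⟩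
            rw [max_eq_right (by omega)]
            have h3 : zc Z v r = zc Z v (v + (v - a)) + zc Z (v + (v - a)) r :=
              zc_add Z (by omega) (by omega)
            have h4 : zc Z v r ≤ zc Z (max a eL) r := zc_mono Z (by omega) le_rfl
            omega
      have hIH := ih v b (by omega) (by omega) hvb hbr (pu m v) cR eL' eR
        (hPU v hvG (by omega) (by omega)) hcR
        (fun w h1 h2 h3 => pu_lt hm h2 (hstrict w h1 (by omega) h3 (by omega)))
        (fun w h1 h2 h3 => hR w h1 (by omega) h3)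
      have hpot : (j : ℝ) * (Λ + 1) * 1 ≤ j * (Λ + 1) * ((pu m v : ℝ) - cL) := by
        apply mul_le_mul_of_nonneg_left _ hjK
        have h1 : cL + 1 ≤ pu m v := hL v hvG hav hvb
        have h2 : ((cL : ℝ) + 1) ≤ (pu m v : ℝ) := by exact_mod_cast h1
        linarith
      have heR : ((v - a : ℕ) : ℝ) + 4 * (zc Z (max v eL') r) + ((eL' - v : ℕ) : ℝ) ≤
          2 * ((gd Z v (v - a)).card : ℝ) + 2 * (zc Z a v) + 4 * (zc Z (max a eL) r)
            + ((eL - a : ℕ) : ℝ) := by
        exact_mod_cast heL'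
      have hw1 : ((wc G a v : ℝ) + 1) ≤ ((v - a : ℕ) : ℝ) := by
        exact_mod_cast wc_left G hav
      rw [hwcR, hzcR]
      nlinarith
    · -- right cut
      have hsplit := gp_split (rev h) G Z (lam := b - v) hvG hav hvb hmin (by omega) (by omega)
      have hsplitR : ((gp (rev h) G Z a v).card : ℝ) + ((gp (rev h) G Z v b).card : ℝ)
          + ((gd Z v (b - v)).card : ℝ) ≤ ((gp (rev h) G Z a b).card : ℝ) := by
        exact_mod_cast hsplit
      have hgd := gd_card Z (v := v) (lam := b - v) (by omega)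
      have e1 : v + (b - v) = b := by omega
      rw [e1] at hgd
      have hpiece := piece v b (by omega) hvb hbr
      obtain ⟨eR', heR'⟩ : ∃ eR' : ℕ, (b - v) + 4 * zc Z l (min v eR') + (v - eR') ≤
          2 * (gd Z v (b - v)).card + 2 * zc Z v b + 4 * zc Z l (min b eR) + (b - eR) := by
        rcases le_or_gt eR v with h1 | h1
        · refine ⟨eR, ?_⟩
          rw [min_eq_right h1, min_eq_right (by omega)]
          omega
        · by_cases h2 : 2 * zc Z (v - (b - v)) v ≤ b - v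
          · refine ⟨eR, ?_⟩
            rw [min_eq_left h1.le]
            have h3 : zc Z l v ≤ zc Z l (min b eR) := zc_mono Z le_rfl (by omega)
            omega
          · refine ⟨v - (b - v), ?_⟩
            rw [min_eq_right (by omega)]
            have h3 : zc Z l v = zc Z l (v - (b - v)) + zc Z (v - (b - v)) v :=
              zc_add Z (by omega) (by omega)
            have h4 : zc Z l v ≤ zc Z l (min b eR) := zc_mono Z le_rfl (by omega)
            omega
      have hIH := ih a v (by omega) hla hav (by omega) cL (pd m v) eL eR'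
        hcL (hPD v hvG (by omega) (by omega))
        (fun w h1 h2 h3 => hL w h1 h2 (by omega))
        (fun w h1 h2 h3 => pd_lt hm h3 (hstrict w h1 h2 (by omega) (by omega)))
      have hpot : (j : ℝ) * (Λ + 1) * 1 ≤ j * (Λ + 1) * ((pd m v : ℝ) - cR) := by
        apply mul_le_mul_of_nonneg_left _ hjK
        have h1 : cR + 1 ≤ pd m v := hR v hvG hav hvb
        have h2 : ((cR : ℝ) + 1) ≤ (pd m v : ℝ) := by exact_mod_cast h1
        linarith
      have heR : ((b - v : ℕ) : ℝ) + 4 * (zc Z l (min v eR')) + ((v - eR' : ℕ) : ℝ) ≤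
          2 * ((gd Z v (b - v)).card : ℝ) + 2 * (zc Z v b) + 4 * (zc Z l (min b eR))
            + ((b - eR : ℕ) : ℝ) := by
        exact_mod_cast heR'
      have hw1 : ((wc G v b : ℝ) + 1) ≤ ((b - v : ℕ) : ℝ) := by
        exact_mod_cast wc_left G hvb
      rw [hwcR, hzcR]
      nlinarith

lemma pu_bounds (m v : ℕ) : ((v / 2 ^ m : ℕ) : ℤ) ≤ pu m v ∧
    pu m v ≤ ((v / 2 ^ m : ℕ) : ℤ) + ((2 ^ m : ℕ) : ℤ) := by
  have := rev_lt m v
  unfold pu
  omega

lemma pd_bounds (m v : ℕ) : -((v / 2 ^ m : ℕ) : ℤ) ≤ pd m v ∧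
    pd m v ≤ -((v / 2 ^ m : ℕ) : ℤ) + ((2 ^ m : ℕ) : ℤ) := by
  have := rev_lt m v
  unfold pd
  omega

/-- The main count by induction on `j`. -/
lemma claim (j : ℕ) (η : ℝ) (hη : 0 < η) : ∃ Λ : ℕ, ∀ (h : ℕ) (G Z : Finset ℕ) (l r : ℕ),
    r ≤ 2 ^ h → l + Λ ≤ r → l < r →
      (j : ℝ) * (wc G l r) - j * η * ((r : ℝ) - l) - 10 * j * (zc Z l r)
        ≤ 2 * ((gp (rev h) G Z l r).card : ℝ) := by
  induction j with
  | zero =>
    refine ⟨0, fun h G Z l r h1 h2 h3 => ?_⟩
    simp
  | succ j ih =>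
    obtain ⟨Λ, hΛ⟩ := ih
    obtain ⟨m, hm⟩ : ∃ m : ℕ, 4 * ((j : ℝ) * (Λ + 1)) / η ≤ (2 : ℝ) ^ m := by
      obtain ⟨m, hm⟩ := pow_unbounded_of_one_lt (4 * ((j : ℝ) * (Λ + 1)) / η)
        (by norm_num : (1 : ℝ) < 2)
      exact ⟨m, hm.le⟩
    obtain ⟨Λ', hΛ'⟩ := exists_nat_ge (4 * ((j : ℝ) * (Λ + 1)) * (2 + 2 ^ m) / η)
    refine ⟨max Λ' (2 ^ m), fun h G Z l r hr hlr hlt => ?_⟩
    have hlr1 : l + Λ' ≤ r := by
      have := le_max_left Λ' (2 ^ m); omega
    have hlr2 : l + 2 ^ m ≤ r := by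
      have := le_max_right Λ' (2 ^ m); omega
    have hmh : m ≤ h := by
      have : 2 ^ m ≤ 2 ^ h := by omega
      exact (Nat.pow_le_pow_iff_right (by norm_num)).mp this
    have piece : ∀ a b, l ≤ a → a < b → b ≤ r →
      (j : ℝ) * (wc G a b) - j * η * ((b : ℝ) - a) - 10 * j * (zc Z a b) - j * Λ
        ≤ 2 * ((gp (rev h) G Z a b).card : ℝ) := by
      intro a b hla hab hbr
      by_cases hc : a + Λ ≤ b
      · have h1 := hΛ h G Z a b (by omega) hc hab
        have h2 : (0 : ℝ) ≤ j * Λ := by positivity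
        linarith
      · have h1 := wc_left G hab
        have h2 : (wc G a b : ℝ) ≤ Λ := by
          have : wc G a b ≤ Λ := by omega
          exact_mod_cast this
        have h3 : (j : ℝ) * (wc G a b) ≤ j * Λ := mul_le_mul_of_nonneg_left h2 (by positivity)
        have h4 : (0 : ℝ) ≤ j * η * ((b : ℝ) - a) := by
          have : (a : ℝ) ≤ b := by exact_mod_cast hab.le
          have : (0 : ℝ) ≤ (b : ℝ) - a := by linarith
          positivity
        have h5 : (0 : ℝ) ≤ 10 * j * (zc Z a b : ℝ) := by positivity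
        have h6 : (0 : ℝ) ≤ 2 * ((gp (rev h) G Z a b).card : ℝ) := by positivity
        linarith
    obtain ⟨X, hX⟩ : ∃ X, X = l / 2 ^ m := ⟨_, rfl⟩
    obtain ⟨Y, hY⟩ : ∃ Y, Y = r / 2 ^ m := ⟨_, rfl⟩
    have hdiv : ∀ v, l < v → v < r → X ≤ v / 2 ^ m ∧ v / 2 ^ m ≤ Y :=
      fun v h1 h2 => ⟨hX ▸ Nat.div_le_div_right h1.le, hY ▸ Nat.div_le_div_right h2.le⟩
    have hldr : X ≤ Y := by rw [hX, hY]; exact Nat.div_le_div_right hlt.le
    have hp2 : 0 < 2 ^ m := by positivity
    have main := amort hmh G Z j Λ η hη.le l r hr piece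
      ((Y : ℤ) + ((2 ^ m : ℕ) : ℤ)) (-(X : ℤ) + ((2 ^ m : ℕ) : ℤ))
      (fun v _ h2 h3 => by
        have h4 := pu_bounds m v
        have h5 := hdiv v h2 h3
        omega)
      (fun v _ h2 h3 => by
        have h4 := pd_bounds m v
        have h5 := hdiv v h2 h3
        omega)
      (r - l) l r le_rfl le_rfl hlt le_rfl ((X : ℤ) - 1)
      (-(Y : ℤ) - 1) l r
      (by omega) (by omega)
      (fun v _ h2 h3 => by
        have h4 := pu_bounds m v
        have h5 := hdiv v h2 h3
        omega)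
      (fun v _ h2 h3 => by
        have h4 := pd_bounds m v
        have h5 := hdiv v h2 h3
        omega)
    rw [max_self, min_self, Nat.sub_self, Nat.sub_self] at main
    push_cast at main
    set C : ℝ := (j : ℝ) * (Λ + 1) with hC
    have hC0 : 0 ≤ C := by positivity
    have hpos : (0 : ℝ) < (2 : ℝ) ^ m := by positivity
    have hd : (Y : ℝ) - (X : ℝ) ≤ ((r : ℝ) - l) / 2 ^ m + 1 := by
      have h1 : (Y : ℝ) ≤ (r : ℝ) / 2 ^ m := by
        have := @Nat.cast_div_le ℝ _ _ _ r (2 ^ m)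
        rw [← hY] at this
        push_cast at this
        exact this
      have h2 : (l : ℝ) / 2 ^ m < (X : ℝ) + 1 := by
        rw [div_lt_iff₀ hpos]
        have h3 : l < (X + 1) * 2 ^ m := by
          have := Nat.lt_div_mul_add (a := l) (b := 2 ^ m) (by positivity)
          rw [← hX] at this
          linarith
        exact_mod_cast h3
      rw [sub_div]
      linarith
    have hL0 : (0 : ℝ) < (r : ℝ) - l := by
      have : (l : ℝ) < r := by exact_mod_cast hlt
      linarith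
    have hL1 : (Λ' : ℝ) ≤ (r : ℝ) - l := by
      have : (l : ℝ) + Λ' ≤ r := by exact_mod_cast hlr1
      linarith
    have hb1 : 4 * C ≤ η * 2 ^ m := by
      rw [div_le_iff₀ hη] at hm
      linarith
    have hb2 : 4 * C * (2 + 2 ^ m) ≤ η * ((r : ℝ) - l) := by
      rw [div_le_iff₀ hη] at hΛ'
      have := mul_le_mul_of_nonneg_left hL1 hη.le
      linarith
    have hb3 : 4 * C * (((r : ℝ) - l) / 2 ^ m) ≤ η * ((r : ℝ) - l) := by
      rw [← mul_div_assoc, div_le_iff₀ hpos]
      have := mul_le_mul_of_nonneg_right hb1 hL0.le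
      linarith
    have hcost : C * (((Y : ℝ) + 2 ^ m - ((X : ℝ) - 1)) +
        (-(X : ℝ) + 2 ^ m - (-(Y : ℝ) - 1))) ≤ η * ((r : ℝ) - l) := by
      have h1 : ((Y : ℝ) + 2 ^ m - ((X : ℝ) - 1)) +
        (-(X : ℝ) + 2 ^ m - (-(Y : ℝ) - 1)) ≤
          2 * (((r : ℝ) - l) / 2 ^ m) + 2 * (2 + 2 ^ m) := by linarith
      have h2 := mul_le_mul_of_nonneg_left h1 hC0
      linarith
    push_cast
    have hz0 : (0 : ℝ) ≤ (zc Z l r : ℝ) := by positivity
    have e1 : ((j : ℝ) + 1) * η * ((r : ℝ) - l) = j * η * ((r : ℝ) - l) + η * ((r : ℝ) - l) := by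
      ring
    rw [e1]
    linarith

/-- Many good pairs. -/
lemma many_good (D J : ℕ) (hD : 1 ≤ D) : ∃ H : ℕ, ∀ h, H ≤ h → ∀ G Z : Finset ℕ,
    (∀ g ∈ G, g < 2 ^ h) → 2 ^ h < D * G.card → 40 * D * Z.card < 2 ^ h →
      J * 2 ^ h ≤ (gp (rev h) G Z 0 (2 ^ h)).card := by
  have hD0 : (0 : ℝ) < D := by exact_mod_cast hD
  obtain ⟨Λ, hΛ⟩ := claim (8 * D * J) (1 / (4 * D)) (by positivity)
  refine ⟨max Λ (4 * D), fun h hh G Z hG h1 h2 => ?_⟩
  have hhN : h < 2 ^ h := Nat.lt_two_pow_self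
  have hN1 : Λ ≤ 2 ^ h := by
    have := le_max_left Λ (4 * D); omega
  have hN2 : 4 * D ≤ 2 ^ h := by
    have := le_max_right Λ (4 * D); omega
  have hc := hΛ h G Z 0 (2 ^ h) le_rfl (by omega) (by positivity)
  have hw : G.card ≤ wc G 0 (2 ^ h) + 1 := by
    unfold wc
    have : G ⊆ G.filter (fun g => 0 < g ∧ g < 2 ^ h) ∪ {0} := by
      intro x hx
      simp only [Finset.mem_union, Finset.mem_filter, Finset.mem_singleton]
      by_cases h0 : x = 0
      · right; exact h0
      · left; exact ⟨hx, by omega, hG x hx⟩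
    have h3 := Finset.card_le_card this
    have h4 := Finset.card_union_le (G.filter (fun g => 0 < g ∧ g < 2 ^ h)) {0}
    rw [Finset.card_singleton] at h4
    omega
  have hz : zc Z 0 (2 ^ h) ≤ Z.card := Finset.card_filter_le _ _
  set N : ℝ := (2 : ℝ) ^ h with hN
  have hwR : (G.card : ℝ) ≤ wc G 0 (2 ^ h) + 1 := by exact_mod_cast hw
  have hzR : (zc Z 0 (2 ^ h) : ℝ) ≤ Z.card := by exact_mod_cast hz
  have h1R : N < D * G.card := by rw [hN]; exact_mod_cast h1
  have h2R : 40 * D * (Z.card : ℝ) < N := by rw [hN]; exact_mod_cast h2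
  have hN2R : 4 * (D : ℝ) ≤ N := by rw [hN]; exact_mod_cast hN2
  have hNpos : 0 < N := by positivity
  push_cast at hc
  rw [← hN] at hc
  have a1 : N / D ≤ G.card := by rw [div_le_iff₀ hD0]; linarith
  have a2 : (Z.card : ℝ) ≤ N / D / 40 := by
    rw [le_div_iff₀ (by norm_num), le_div_iff₀ hD0]; linarith
  have a3 : 4 ≤ N / D := by rw [le_div_iff₀ hD0]; linarith
  have a4 : 1 / (4 * D) * (N - 0) = N / D / 4 := by field_simp; ring
  have hj : (0 : ℝ) ≤ 8 * D * J := by positivity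
  have a5 : (8 * D * J : ℝ) * (N / D / 4) ≤
      8 * D * J * ((wc G 0 (2 ^ h) : ℝ) - N / D / 4 - 10 * (zc Z 0 (2 ^ h))) := by
    apply mul_le_mul_of_nonneg_left _ hj
    linarith
  have a6 : (8 * D * J : ℝ) * (N / D / 4) = 2 * (J * N) := by field_simp; ring
  have a7 : (J : ℝ) * N ≤ ((gp (rev h) G Z 0 (2 ^ h)).card : ℝ) := by
    have e : (8 * D * J : ℝ) * (1 / (4 * D)) * (N - 0) = (8 * D * J : ℝ) * (N / D / 4) := by
      rw [mul_assoc, a4]
    rw [e] at hc
    nlinarith
  rw [hN] at a7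
  exact_mod_cast a7

end Pool.Agent.H39
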