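import Mathlib

namespace Pool.Agent.H39

/-- A levelled structure: levels with times, slopes and a colouring rule. -/
structure Lvl (L : Type) where
  τ : L → ℕ
  θ : L → ℕ
  τ_inj : Function.Injective τ
  θ_inj : Function.Injective θ
  col : L → (L → Bool) → (L → Bool) → Bool

/-- `x` is before `y`, and the earliest level where they differ is `ℓ`. -/
def Df {L : Type} (τ : L → ℕ) (x y : L → Bool) (ℓ : L) : Prop :=
  x ℓ = false ∧ y ℓ = true ∧ ∀ m, τ m < τ ℓ → x m = y m

lemma Df.unique {L : Type} {τ : L → ℕ} (hτ : Function.Injective τ) {x y : L → Bool} {ℓ ℓ' : L}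
    (h : Df τ x y ℓ) (h' : Df τ x y ℓ') : ℓ = ℓ' := by
  rcases lt_trichotomy (τ ℓ) (τ ℓ') with h1 | h1 | h1
  · have := h'.2.2 ℓ h1
    rw [h.1, h.2.1] at this
    exact absurd this (by decide)
  · exact hτ h1
  · have := h.2.2 ℓ' h1
    rw [h'.1, h'.2.1] at this
    exact absurd this (by decide)

/-- comparison in one of two directions -/
def dir (up : Bool) (a b : ℕ) : Prop := if up then a < b else b < a

lemma dir_trans {up : Bool} {a b c : ℕ} (h : dir up a b) (h' : dir up b c) : dir up a c := by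
  unfold dir at *
  split_ifs at * <;> omega

lemma dir_irrefl {up : Bool} {a : ℕ} : ¬ dir up a a := by
  unfold dir
  split_ifs <;> omega

/-- A monochromatic cap or cup of `n + 1` leaves. -/
structure Chain {L : Type} (A : Lvl L) (up : Bool) (s : ℕ → L → Bool) (u : ℕ → L) (n : ℕ)
    (c : Bool) : Prop where
  step : ∀ i < n, Df A.τ (s i) (s (i + 1)) (u i)
  mono : ∀ i j, i < j → j < n → dir up (A.θ (u i)) (A.θ (u j))
  colr : ∀ i j ℓ, i < j → j ≤ n → Df A.τ (s i) (s j) ℓ → A.col ℓ (s i) (s j) = c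

lemma chain_Df {L : Type} {τ : L → ℕ} (hτ : Function.Injective τ) {s : ℕ → L → Bool} {u : ℕ → L}
    {n : ℕ} (step : ∀ i < n, Df τ (s i) (s (i + 1)) (u i)) (i j : ℕ) (hij : i < j) (hj : j ≤ n) :
    ∃ k, i ≤ k ∧ k < j ∧ Df τ (s i) (s j) (u k) ∧ ∀ k', i ≤ k' → k' < j → τ (u k) ≤ τ (u k') := by
  induction j, hij using Nat.le_induction with
  | base =>
    refine ⟨i, le_rfl, Nat.lt_succ_self i, step i (by omega), ?_⟩
    intro k' h1 h2
    have : k' = i := by omega
    rw [this]
  | succ j hij ih =>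
    obtain ⟨k, h1, h2, h3, h4⟩ := ih (by omega)
    have hs := step j (by omega)
    rcases lt_trichotomy (τ (u k)) (τ (u j)) with h | h | h
    · refine ⟨k, h1, by omega, ⟨h3.1, ?_, ?_⟩, ?_⟩
      · rw [← hs.2.2 (u k) h]; exact h3.2.1
      · intro m hm
        rw [h3.2.2 m hm]
        exact hs.2.2 m (by omega)
      · intro k' h5 h6
        rcases Nat.lt_succ_iff_lt_or_eq.mp h6 with h7 | h7
        · exact h4 k' h5 h7
        · rw [h7]; exact h.le
    · exfalso
      have e := hτ h
      have a := h3.2.1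
      rw [e, hs.1] at a
      exact absurd a (by decide)
    · refine ⟨j, by omega, by omega, ⟨?_, hs.2.1, ?_⟩, ?_⟩
      · rw [h3.2.2 (u j) h]; exact hs.1
      · intro m hm
        rw [h3.2.2 m (by omega)]
        exact hs.2.2 m hm
      · intro k' h5 h6
        rcases Nat.lt_succ_iff_lt_or_eq.mp h6 with h7 | h7
        · have := h4 k' h5 h7; omega
        · rw [h7]

/-- `A` has no monochromatic cap or cup with more than `k + 1` leaves. -/
def Bdd {L : Type} (A : Lvl L) (k : ℕ) : Prop :=
  ∀ up s u n c, Chain A up s u n c → n ≤ k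

/-- The block lemma. -/
lemma block {L M : Type} (A : Lvl L) (Q : Lvl M) (k : ℕ) (hQ : Bdd Q k) (e : M → L)
    (hτ : ∀ a b, Q.τ a < Q.τ b → A.τ (e a) < A.τ (e b))
    (hθ : ∀ a b, A.θ (e a) < A.θ (e b) → Q.θ a < Q.θ b)
    (hconv : ∀ a b ℓ, A.θ (e a) < A.θ ℓ → A.θ ℓ < A.θ (e b) → ∃ m, e m = ℓ)
    (hcol : ∀ m x y, A.col (e m) x y = Q.col m (x ∘ e) (y ∘ e))
    {up : Bool} {s : ℕ → L → Bool} {u : ℕ → L} {n : ℕ} {c : Bool} (hc : Chain A up s u n c)
    (I : Finset ℕ) (hI : ∀ i ∈ I, i < n ∧ ∃ m, e m = u i) : I.card ≤ k := by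
  rcases I.eq_empty_or_nonempty with h0 | h0
  · rw [h0]; simp
  set i0 := I.min' h0 with hi0
  set i1 := I.max' h0 with hi1
  have hi0m := I.min'_mem h0
  have hi1m := I.max'_mem h0
  have hle : i0 ≤ i1 := I.min'_le_max' h0
  have hin : i1 < n := (hI _ hi1m).1
  have hr : ∀ i, i0 ≤ i → i ≤ i1 → ∃ m, e m = u i := by
    intro i h1 h2
    rcases h1.lt_or_eq with h1 | h1
    swap
    · rw [← h1]; exact (hI _ hi0m).2
    rcases h2.lt_or_eq with h2 | h2
    swap
    · rw [h2]; exact (hI _ hi1m).2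
    obtain ⟨a, ha⟩ := (hI _ hi0m).2
    obtain ⟨b, hb⟩ := (hI _ hi1m).2
    have m1 := hc.mono i0 i h1 (by omega)
    have m2 := hc.mono i i1 h2 (by omega)
    unfold dir at m1 m2
    rw [← ha] at m1
    rw [← hb] at m2
    split_ifs at m1 m2
    · exact hconv a b _ m1 m2
    · exact hconv b a _ m2 m1
  have : Nonempty M := ⟨(hI _ hi0m).2.choose⟩
  choose! u' hu' using hr
  have key : i1 - i0 + 1 ≤ k := by
    apply hQ up (fun i => s (i0 + i) ∘ e) (fun i => u' (i0 + i)) (i1 - i0 + 1) c
    have tr : ∀ x y m, Df A.τ x y (e m) → Df Q.τ (x ∘ e) (y ∘ e) m := by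
      intro x y m h
      exact ⟨h.1, h.2.1, fun m' hm' => h.2.2 (e m') (hτ _ _ hm')⟩
    constructor
    · intro i hi
      have h1 := hc.step (i0 + i) (by omega)
      rw [← hu' (i0 + i) (by omega) (by omega)] at h1
      exact tr _ _ _ h1
    · intro i j hij hj
      have h1 := hc.mono (i0 + i) (i0 + j) (by omega) (by omega)
      rw [← hu' (i0 + i) (by omega) (by omega), ← hu' (i0 + j) (by omega) (by omega)] at h1
      unfold dir at h1 ⊢
      split_ifs at h1 ⊢
      · exact hθ _ _ h1
      · exact hθ _ _ h1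
    · intro i j ℓ hij hj hd
      obtain ⟨k', h1, h2, h3, h4⟩ := chain_Df A.τ_inj hc.step (i0 + i) (i0 + j) (by omega) (by omega)
      have h5 := hu' k' (by omega) (by omega)
      have h6 := hc.colr (i0 + i) (i0 + j) (u k') (by omega) (by omega) h3
      rw [← h5] at h3 h6
      have h7 := tr _ _ _ h3
      have h8 : ℓ = u' k' := hd.unique Q.τ_inj h7
      rw [h8, ← h6, hcol]
  have hsub : I ⊆ Finset.Icc i0 i1 := by
    intro x hx
    rw [Finset.mem_Icc]
    exact ⟨I.min'_le x hx, I.le_max' x hx⟩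
  have := Finset.card_le_card hsub
  rw [Nat.card_Icc] at this
  omega

/-- There is a structure with `r` levels all of whose monochromatic caps and cups have at most
`k + 1` leaves. -/
def Good (r k : ℕ) : Prop :=
  ∃ (L : Type) (_ : Fintype L) (A : Lvl L), Fintype.card L = r ∧ Bdd A k

lemma good_one : Good 1 1 := by
  refine ⟨Unit, inferInstance, ⟨fun _ => 0, fun _ => 0, fun _ _ _ => rfl, fun _ _ _ => rfl,
    fun _ _ _ => true⟩, by simp, ?_⟩
  intro up s u n c h
  by_contra hn
  have h1 := h.step 0 (by omega)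
  have h2 := h.step 1 (by omega)
  have h3 := h1.2.1
  have h4 := h2.1
  have : u 0 = u 1 := rfl
  rw [this] at h3
  rw [show (0 + 1) = 1 from rfl] at h3
  rw [h3] at h4
  exact absurd h4 (by decide)

lemma exists_bound {L : Type} [Fintype L] (f : L → ℕ) : ∃ T, ∀ a, f a < T := by
  refine ⟨(Finset.univ.sup f) + 1, fun a => ?_⟩
  have := Finset.le_sup (f := f) (Finset.mem_univ a)
  omega

open Classical in
lemma good_add {r1 k1 r2 k2 : ℕ} (h1 : Good r1 k1) (h2 : Good r2 k2) :
    Good (r1 + r2) (k1 + k2) := by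
  obtain ⟨L1, _, A1, hr1, hk1⟩ := h1
  obtain ⟨L2, _, A2, hr2, hk2⟩ := h2
  obtain ⟨T, hT⟩ := exists_bound A1.τ
  obtain ⟨K, hK⟩ := exists_bound A1.θ
  let A : Lvl (L1 ⊕ L2) :=
    { τ := Sum.elim A1.τ (fun b => T + A2.τ b)
      θ := Sum.elim A1.θ (fun b => K + A2.θ b)
      τ_inj := by
        rintro (a | a) (b | b) h
        · simp only [Sum.elim_inl] at h; rw [A1.τ_inj h]
        · simp only [Sum.elim_inl, Sum.elim_inr] at h
          have := hT a; omega
        · simp only [Sum.elim_inl, Sum.elim_inr] at h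
          have := hT b; omega
        · simp only [Sum.elim_inr] at h
          rw [A2.τ_inj (Nat.add_left_cancel h)]
      θ_inj := by
        rintro (a | a) (b | b) h
        · simp only [Sum.elim_inl] at h; rw [A1.θ_inj h]
        · simp only [Sum.elim_inl, Sum.elim_inr] at h
          have := hK a; omega
        · simp only [Sum.elim_inl, Sum.elim_inr] at h
          have := hK b; omega
        · simp only [Sum.elim_inr] at h
          rw [A2.θ_inj (Nat.add_left_cancel h)]
      col := fun ℓ x y => Sum.elim (fun a => A1.col a (x ∘ Sum.inl) (y ∘ Sum.inl))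
        (fun b => A2.col b (x ∘ Sum.inr) (y ∘ Sum.inr)) ℓ }
  refine ⟨L1 ⊕ L2, inferInstance, A, by rw [Fintype.card_sum, hr1, hr2], ?_⟩
  intro up s u n c hc
  have b1 := block A A1 k1 hk1 Sum.inl (fun a b h => h) (fun a b h => h)
    (by
      rintro a b (ℓ | ℓ) h3 h4
      · exact ⟨ℓ, rfl⟩
      · exfalso
        have h5 : K + A2.θ ℓ < A1.θ b := h4
        have := hK b
        omega) (fun m x y => rfl) hc
    ((Finset.range n).filter (fun i => ∃ m, Sum.inl m = u i))
    (by intro i hi; simpa using hi)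
  have b2 := block A A2 k2 hk2 Sum.inr (fun a b h => Nat.add_lt_add_left h T)
    (fun a b h => Nat.lt_of_add_lt_add_left h)
    (by
      rintro a b (ℓ | ℓ) h3 h4
      · exfalso
        have h5 : K + A2.θ a < A1.θ ℓ := h3
        have := hK ℓ
        omega
      · exact ⟨ℓ, rfl⟩) (fun m x y => rfl) hc
    ((Finset.range n).filter (fun i => ∃ m, Sum.inr m = u i))
    (by intro i hi; simpa using hi)
  have hcov : Finset.range n ⊆ ((Finset.range n).filter (fun i => ∃ m, Sum.inl m = u i)) ∪
      ((Finset.range n).filter (fun i => ∃ m, Sum.inr m = u i)) := by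
    intro i hi
    rw [Finset.mem_union, Finset.mem_filter, Finset.mem_filter]
    rcases h : u i with a | b
    · left; exact ⟨hi, a, rfl⟩
    · right; exact ⟨hi, b, rfl⟩
  have h3 := Finset.card_le_card hcov
  have h4 := Finset.card_union_le ((Finset.range n).filter (fun i => ∃ m, Sum.inl m = u i))
      ((Finset.range n).filter (fun i => ∃ m, Sum.inr m = u i))
  rw [Finset.card_range] at h3
  omega

lemma good_mul {r k : ℕ} (h : Good r k) (m : ℕ) (hm : 1 ≤ m) : Good (m * r) (m * k) := by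
  induction m, hm using Nat.le_induction with
  | base => simpa using h
  | succ m _ ih =>
    rw [Nat.succ_mul, Nat.succ_mul]
    exact good_add ih h

end Pool.Agent.H39
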