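import Pool.Agent.H39.Geom

namespace Pool.Agent.H39

open Pool.Agent.Results.MP_6c3374_co.PolyUpper

section

variable {L : Type} [Fintype L]

lemma genpos {τ θ : L → ℕ} (hτ : Function.Injective τ) (hθ : Function.Injective θ) {Θ : ℕ} {ε : ℝ}
    (hs : Small τ θ Θ ε) {x y z : L → Bool} (hxy : x ≠ y) (hxz : x ≠ z) (hyz : y ≠ z) :
    cr (pt τ θ ε x) (pt τ θ ε y) (pt τ θ ε z) ≠ 0 := by
  have key : ∀ a b c : L → Bool, px τ ε a < px τ ε b → px τ ε b < px τ ε c →
      cr (pt τ θ ε a) (pt τ θ ε b) (pt τ θ ε c) ≠ 0 := fun a b c h h' => cr_ne hτ hθ hs h h'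
  have hx := (px_inj hτ hs).ne hxy
  have hx' := (px_inj hτ hs).ne hxz
  have hx'' := (px_inj hτ hs).ne hyz
  rcases lt_or_gt_of_ne hx with h1 | h1 <;> rcases lt_or_gt_of_ne hx' with h2 | h2 <;>
    rcases lt_or_gt_of_ne hx'' with h3 | h3
  · exact key _ _ _ h1 h3
  · have := key _ _ _ h2 h3
    intro h; apply this
    unfold cr at h ⊢
    linarith
  · linarith
  · have := key _ _ _ h2 h1
    intro h; apply this
    unfold cr at h ⊢
    linarith
  · have := key _ _ _ h1 h2
    intro h; apply this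
    unfold cr at h ⊢
    linarith
  · linarith
  · have := key _ _ _ h3 h2
    intro h; apply this
    unfold cr at h ⊢
    linarith
  · have := key _ _ _ h3 h1
    intro h; apply this
    unfold cr at h ⊢
    linarith

open Classical in
/-- The colouring of the pairs of points. -/
noncomputable def colr (A : Lvl L) (ε : ℝ) (e : Sym2 Plane) : Bool :=
  decide (∃ x y ℓ, e = s(pt A.τ A.θ ε x, pt A.τ A.θ ε y) ∧ Df A.τ x y ℓ ∧ A.col ℓ x y = true)

open Classical in
lemma colr_eq (A : Lvl L) {Θ : ℕ} {ε : ℝ} (hs : Small A.τ A.θ Θ ε) {x y : L → Bool} {ℓ : L}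
    (h : Df A.τ x y ℓ) :
    colr A ε s(pt A.τ A.θ ε x, pt A.τ A.θ ε y) = A.col ℓ x y := by
  unfold colr
  rcases hc : A.col ℓ x y with _ | _
  · rw [decide_eq_false_iff_not]
    rintro ⟨x', y', ℓ', h1, h2, h3⟩
    rw [Sym2.eq_iff] at h1
    rcases h1 with ⟨h4, h5⟩ | ⟨h4, h5⟩
    · have e1 := pt_inj A.τ_inj hs h4
      have e2 := pt_inj A.τ_inj hs h5
      subst e1; subst e2
      rw [← h.unique A.τ_inj h2, hc] at h3
      exact absurd h3 (by decide)
    · have e1 := pt_inj A.τ_inj hs h4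
      have e2 := pt_inj A.τ_inj hs h5
      subst e1; subst e2
      have := px_lt A.τ_inj hs h
      have := px_lt A.τ_inj hs h2
      linarith
  · rw [decide_eq_true_iff]
    exact ⟨x, y, ℓ, rfl, h, hc⟩

/-- From a large cap or cup of leaves to a chain. -/
lemma chain_of_set (A : Lvl L) {Θ : ℕ} {ε : ℝ} (hs : Small A.τ A.θ Θ ε) {k : ℕ} (hk : Bdd A k)
    (T : Finset (L → Bool)) (hT : k + 2 ≤ T.card) (c : Bool)
    (hcol : ∀ x ∈ T, ∀ y ∈ T, ∀ ℓ, Df A.τ x y ℓ → A.col ℓ x y = c) (up : Bool)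
    (hcap : ∀ x ∈ T, ∀ y ∈ T, ∀ z ∈ T, px A.τ ε x < px A.τ ε y → px A.τ ε y < px A.τ ε z →
      (if up then 0 < cr (pt A.τ A.θ ε x) (pt A.τ A.θ ε y) (pt A.τ A.θ ε z)
        else cr (pt A.τ A.θ ε x) (pt A.τ A.θ ε y) (pt A.τ A.θ ε z) < 0)) : False := by
  obtain ⟨s, hs1, hs2⟩ := sort_key (px A.τ ε) T (px_inj A.τ_inj hs)
  have hD : ∀ i, i + 1 < T.card → ∃ ℓ, Df A.τ (s i) (s (i + 1)) ℓ := fun i hi =>
    Df_of_lt A.τ_inj hs (hs2 i (i + 1) (by omega) hi)
  have hne : Nonempty L := ⟨(hD 0 (by omega)).choose⟩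
  choose! u hu using hD
  have hcons : ∀ i, i + 2 < T.card → dir up (A.θ (u i)) (A.θ (u (i + 1))) := by
    intro i hi
    have h1 := hcap (s i) (hs1 _ (by omega)) (s (i + 1)) (hs1 _ (by omega)) (s (i + 2))
      (hs1 _ (by omega)) (hs2 _ _ (by omega) (by omega)) (hs2 _ _ (by omega) (by omega))
    have h2 := hu i (by omega)
    have h3 := hu (i + 1) (by omega)
    rcases lt_trichotomy (A.θ (u i)) (A.θ (u (i + 1))) with h4 | h4 | h4
    · have h5 := orient_pos A.τ_inj hs h2 h3 h4
      unfold dir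
      split_ifs at h1 ⊢
      · exact h4
      · exfalso; exact absurd h1 (not_lt.mpr h5.le)
    · exfalso
      have e := A.θ_inj h4
      have a := h2.2.1
      rw [e, h3.1] at a
      exact absurd a (by decide)
    · have h5 := orient_neg A.τ_inj hs h2 h3 h4
      unfold dir
      split_ifs at h1 ⊢
      · exfalso; exact absurd h1 (not_lt.mpr h5.le)
      · exact h4
  have hmono : ∀ i j, i < j → j + 1 < T.card → dir up (A.θ (u i)) (A.θ (u j)) := by
    intro i j hij
    induction j, hij using Nat.le_induction with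
    | base => intro h; exact hcons i (by omega)
    | succ j hij ih =>
      intro h
      exact dir_trans (ih (by omega)) (hcons j (by omega))
  have := hk up s u (T.card - 1) c
    ⟨fun i hi => hu i (by omega), fun i j hij hj => hmono i j hij (by omega),
      fun i j ℓ hij hj hd => hcol _ (hs1 i (by omega)) _ (hs1 j (by omega)) ℓ hd⟩
  omega

end

open Classical in
/-- The lower bound given by a structure. -/
lemma not_forces {r k : ℕ} (h : Good r k) {p n : ℕ} (hp : 2 * k + 1 ≤ p) (hk : 1 ≤ k)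
    (hn : n ≤ 2 ^ r) : ¬ Forces p n := by
  obtain ⟨L, _, A, hL, hA⟩ := h
  obtain ⟨Θ, ε, hs⟩ := exists_small A.τ A.θ
  intro hF
  have hcard : (Finset.univ.image (pt A.τ A.θ ε)).card = 2 ^ r := by
    rw [Finset.card_image_of_injective _ (pt_inj A.τ_inj hs), Finset.card_univ, Fintype.card_fun,
      Fintype.card_bool, hL]
  obtain ⟨P, hPsub, hP⟩ := Finset.exists_subset_card_eq (show n ≤ _ by rw [hcard]; exact hn)
  have hPmem : ∀ a ∈ P, ∃ x, pt A.τ A.θ ε x = a := by
    intro a ha
    have := hPsub ha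
    rw [Finset.mem_image] at this
    obtain ⟨x, _, hx⟩ := this
    exact ⟨x, hx⟩
  have hgen : GeneralPosition P := by
    intro a ha b hb c hc hab hac hbc hcol
    obtain ⟨x, rfl⟩ := hPmem a ha
    obtain ⟨y, rfl⟩ := hPmem b hb
    obtain ⟨z, rfl⟩ := hPmem c hc
    apply genpos A.τ_inj A.θ_inj hs (x := x) (y := y) (z := z)
    · rintro rfl; exact hab rfl
    · rintro rfl; exact hac rfl
    · rintro rfl; exact hbc rfl
    · exact cr_of_collinear hcol
  obtain ⟨S, hSP, hSc, hconv, col, hmono⟩ := hF P hP hgen (colr A ε)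
  -- the set of leaves
  set S' : Finset (L → Bool) := Finset.univ.filter (fun x => pt A.τ A.θ ε x ∈ S) with hS'
  have hmemS' : ∀ x, x ∈ S' ↔ pt A.τ A.θ ε x ∈ S := by intro x; simp [hS']
  have hS'c : S'.card = p := by
    rw [← hSc, ← Finset.card_image_of_injective S' (pt_inj A.τ_inj hs)]
    congr 1
    ext a
    rw [Finset.mem_image]
    constructor
    · rintro ⟨x, hx, rfl⟩
      exact (hmemS' x).mp hx
    · intro ha
      obtain ⟨x, rfl⟩ := hPmem a (hSP ha)
      exact ⟨x, (hmemS' x).mpr ha, rfl⟩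
  have hcolS : ∀ x ∈ S', ∀ y ∈ S', ∀ ℓ, Df A.τ x y ℓ → A.col ℓ x y = col := by
    intro x hx y hy ℓ hd
    rw [← colr_eq A hs hd]
    apply hmono _ ((hmemS' x).mp hx) _ ((hmemS' y).mp hy)
    intro he
    have e := pt_inj A.τ_inj hs he
    subst e
    have := px_lt A.τ_inj hs hd
    exact lt_irrefl _ this
  have hne : S'.Nonempty := by
    rw [← Finset.card_pos, hS'c]; omega
  obtain ⟨a, ha, hamin⟩ := Finset.exists_min_image S' (px A.τ ε) hne
  obtain ⟨b, hb, hbmax⟩ := Finset.exists_max_image S' (px A.τ ε) hne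
  have hinj := px_inj (θ := A.θ) A.τ_inj hs
  have hltL : ∀ x ∈ S', x ≠ a → px A.τ ε a < px A.τ ε x := by
    intro x hx hxa
    rcases (hamin x hx).lt_or_eq with h1 | h1
    · exact h1
    · exact absurd (hinj h1).symm hxa
  have hltR : ∀ x ∈ S', x ≠ b → px A.τ ε x < px A.τ ε b := by
    intro x hx hxb
    rcases (hbmax x hx).lt_or_eq with h1 | h1
    · exact h1
    · exact absurd (hinj h1) hxb
  have hab : a ≠ b := by
    rintro rfl
    have : S' ⊆ {a} := by
      intro x hx
      rw [Finset.mem_singleton]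
      by_contra hxa
      have := hltL x hx hxa
      have := hbmax x hx
      linarith
    have := Finset.card_le_card this
    rw [hS'c, Finset.card_singleton] at this
    omega
  let Up := S'.filter (fun y => y ≠ a ∧ y ≠ b ∧
    cr (pt A.τ A.θ ε a) (pt A.τ A.θ ε y) (pt A.τ A.θ ε b) < 0)
  let Dn := S'.filter (fun y => y ≠ a ∧ y ≠ b ∧
    0 < cr (pt A.τ A.θ ε a) (pt A.τ A.θ ε y) (pt A.τ A.θ ε b))
  have hcov : S' ⊆ (Up ∪ Dn) ∪ {a, b} := by
    intro y hy
    simp only [Up, Dn, Finset.mem_union, Finset.mem_filter, Finset.mem_insert,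
      Finset.mem_singleton]
    by_cases hya : y = a
    · right; left; exact hya
    by_cases hyb : y = b
    · right; right; exact hyb
    left
    rcases lt_trichotomy (cr (pt A.τ A.θ ε a) (pt A.τ A.θ ε y) (pt A.τ A.θ ε b)) 0 with h1 | h1 | h1
    · left; exact ⟨hy, hya, hyb, h1⟩
    · exact absurd h1 (genpos A.τ_inj A.θ_inj hs (Ne.symm hya) hab hyb)
    · right; exact ⟨hy, hya, hyb, h1⟩
  have hc1 := Finset.card_le_card hcov
  have hc2 := Finset.card_union_le (Up ∪ Dn) {a, b}
  have hc3 := Finset.card_union_le Up Dn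
  rw [Finset.card_pair hab] at hc2
  rw [hS'c] at hc1
  -- the convex hull argument
  have hull : ∀ y ∈ S', ∀ p1 ∈ S', ∀ p2 ∈ S', ∀ q1 ∈ S', ∀ q2 ∈ S',
      px A.τ ε p1 < px A.τ ε y → px A.τ ε y < px A.τ ε p2 →
      px A.τ ε q1 < px A.τ ε y → px A.τ ε y < px A.τ ε q2 →
      cr (pt A.τ A.θ ε p1) (pt A.τ A.θ ε y) (pt A.τ A.θ ε p2) < 0 →
      0 < cr (pt A.τ A.θ ε q1) (pt A.τ A.θ ε y) (pt A.τ A.θ ε q2) → False := by
    intro y hy p1 hp1 p2 hp2 q1 hq1 q2 hq2 g1 g2 g3 g4 g5 g6
    apply hconv (pt A.τ A.θ ε y) ((hmemS' y).mp hy)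
    have hin : ∀ x ∈ S', px A.τ ε x ≠ px A.τ ε y →
        pt A.τ A.θ ε x ∈ convexHull ℝ ((S : Set Plane) \ {pt A.τ A.θ ε y}) := by
      intro x hx hxy
      apply subset_convexHull
      refine ⟨(hmemS' x).mp hx, ?_⟩
      rw [Set.mem_singleton_iff]
      intro he
      apply hxy
      rw [pt_inj A.τ_inj hs he]
    apply hull_mem (convex_convexHull ℝ _) (hin p1 hp1 g1.ne) (hin p2 hp2 g2.ne')
      (hin q1 hq1 g3.ne) (hin q2 hq2 g4.ne')
    · rw [pt_zero, pt_zero]; exact g1
    · rw [pt_zero, pt_zero]; exact g2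
    · rw [pt_zero, pt_zero]; exact g3
    · rw [pt_zero, pt_zero]; exact g4
    · exact g5
    · exact g6
  have hcr : ∀ x y z, px A.τ ε x < px A.τ ε y → px A.τ ε y < px A.τ ε z →
      cr (pt A.τ A.θ ε x) (pt A.τ A.θ ε y) (pt A.τ A.θ ε z) ≠ 0 := fun x y z h1 h2 =>
    cr_ne A.τ_inj A.θ_inj hs h1 h2
  rcases Nat.lt_or_ge Up.card k with hU | hU
  · -- use the lower part
    have hDc : k ≤ Dn.card := by omega
    have haD : a ∉ Dn := by simp [Dn]
    have hbD : b ∉ Dn := by simp [Dn]
    have hTc : (insert a (insert b Dn)).card = Dn.card + 2 := by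
      rw [Finset.card_insert_of_notMem, Finset.card_insert_of_notMem hbD]
      rw [Finset.mem_insert]
      push Not
      exact ⟨hab, haD⟩
    have hTsub : ∀ x ∈ insert a (insert b Dn), x ∈ S' := by
      intro x hx
      simp only [Dn, Finset.mem_insert, Finset.mem_filter] at hx
      rcases hx with rfl | rfl | hx
      · exact ha
      · exact hb
      · exact hx.1
    apply chain_of_set A hs hA (insert a (insert b Dn)) (by omega) col
      (fun x hx y hy ℓ hd => hcolS x (hTsub x hx) y (hTsub y hy) ℓ hd) true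
    intro x hx y hy z hz h1 h2
    rw [if_pos rfl]
    by_contra hcon
    have h3 : cr (pt A.τ A.θ ε x) (pt A.τ A.θ ε y) (pt A.τ A.θ ε z) < 0 :=
      lt_of_le_of_ne (not_lt.mp hcon) (hcr x y z h1 h2)
    have hya : y ≠ a := by
      rintro rfl
      have := hamin x (hTsub x hx); linarith
    have hyb : y ≠ b := by
      rintro rfl
      have := hbmax z (hTsub z hz); linarith
    have hyD : y ∈ Dn := by
      rw [Finset.mem_insert, Finset.mem_insert] at hy
      rcases hy with hy | hy | hy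
      · exact absurd hy hya
      · exact absurd hy hyb
      · exact hy
    have hyD' := hyD
    simp only [Dn, Finset.mem_filter] at hyD'
    exact hull y (hTsub y hy) x (hTsub x hx) z (hTsub z hz) a ha b hb h1 h2
      (hltL y hyD'.1 hya) (hltR y hyD'.1 hyb) h3 hyD'.2.2.2
  · have haU : a ∉ Up := by simp [Up]
    have hbU : b ∉ Up := by simp [Up]
    have hTc : (insert a (insert b Up)).card = Up.card + 2 := by
      rw [Finset.card_insert_of_notMem, Finset.card_insert_of_notMem hbU]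
      rw [Finset.mem_insert]
      push Not
      exact ⟨hab, haU⟩
    have hTsub : ∀ x ∈ insert a (insert b Up), x ∈ S' := by
      intro x hx
      simp only [Up, Finset.mem_insert, Finset.mem_filter] at hx
      rcases hx with rfl | rfl | hx
      · exact ha
      · exact hb
      · exact hx.1
    apply chain_of_set A hs hA (insert a (insert b Up)) (by omega) col
      (fun x hx y hy ℓ hd => hcolS x (hTsub x hx) y (hTsub y hy) ℓ hd) false
    intro x hx y hy z hz h1 h2
    rw [if_neg (by decide)]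
    by_contra hcon
    have h3 : 0 < cr (pt A.τ A.θ ε x) (pt A.τ A.θ ε y) (pt A.τ A.θ ε z) :=
      lt_of_le_of_ne (not_lt.mp hcon) (hcr x y z h1 h2).symm
    have hya : y ≠ a := by
      rintro rfl
      have := hamin x (hTsub x hx); linarith
    have hyb : y ≠ b := by
      rintro rfl
      have := hbmax z (hTsub z hz); linarith
    have hyD : y ∈ Up := by
      rw [Finset.mem_insert, Finset.mem_insert] at hy
      rcases hy with hy | hy | hy
      · exact absurd hy hya
      · exact absurd hy hyb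
      · exact hy
    have hyD' := hyD
    simp only [Up, Finset.mem_filter] at hyD'
    exact hull y (hTsub y hy) a ha b hb x (hTsub x hx) z (hTsub z hz)
      (hltL y hyD'.1 hya) (hltR y hyD'.1 hyb) h1 h2 hyD'.2.2.2 h3

end Pool.Agent.H39
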