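import Pool.Agent.H39.Ldm
import Pool.Agent.H39.HeavyPath

namespace Pool.Agent.H39

/-- Counting lemma (union bound). -/
lemma exists_hit {E C I : Type} [Fintype E] [DecidableEq E] [Fintype C] [DecidableEq C]
    [Nonempty C]
    (I0 : Finset I) (S : I → Finset E) (t : I → E → C) (m : ℕ)
    (hS : ∀ i ∈ I0, m ≤ (S i).card)
    (h : I0.card * (Fintype.card C - 1) ^ m < (Fintype.card C) ^ m) :
    ∃ φ : E → C, ∀ i ∈ I0, ∃ e ∈ S i, φ e = t i e := by
  classical
  by_contra hcon
  push Not at hcon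
  rcases I0.eq_empty_or_nonempty with h0 | ⟨i0, hi0⟩
  · obtain ⟨i, hi, _⟩ := hcon (fun _ => Classical.arbitrary C)
    rw [h0] at hi
    simp at hi
  have hmE : m ≤ Fintype.card E := (hS i0 hi0).trans (Finset.card_le_univ _)
  have hbad : ∀ i ∈ I0, (Finset.univ.filter (fun φ : E → C => ∀ e ∈ S i, φ e ≠ t i e)).card ≤
      (Fintype.card C - 1) ^ m * (Fintype.card C) ^ (Fintype.card E - m) := by
    intro i hi
    obtain ⟨S', hS', hc'⟩ := Finset.exists_subset_card_eq (hS i hi)
    have hsub : Finset.univ.filter (fun φ : E → C => ∀ e ∈ S i, φ e ≠ t i e) ⊆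
        Fintype.piFinset (fun e => if e ∈ S' then Finset.univ.erase (t i e) else Finset.univ) := by
      intro φ hφ
      simp only [Finset.mem_filter, Finset.mem_univ, true_and] at hφ
      rw [Fintype.mem_piFinset]
      intro e
      split_ifs with he
      · rw [Finset.mem_erase]
        exact ⟨hφ e (hS' he), Finset.mem_univ _⟩
      · exact Finset.mem_univ _
    refine (Finset.card_le_card hsub).trans ?_
    rw [Fintype.card_piFinset]
    have : ∀ e, (if e ∈ S' then Finset.univ.erase (t i e) else Finset.univ).card =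
        if e ∈ S' then Fintype.card C - 1 else Fintype.card C := by
      intro e
      split_ifs
      · rw [Finset.card_erase_of_mem (Finset.mem_univ _)]; rfl
      · rfl
    simp_rw [this]
    rw [Finset.prod_ite, Finset.prod_const, Finset.prod_const]
    have h1 : (Finset.univ.filter (fun e => e ∈ S')).card = m := by
      rw [← hc']; congr 1; ext x; simp
    have h2 : (Finset.univ.filter (fun e => e ∉ S')).card = Fintype.card E - m := by
      have := Finset.card_filter_add_card_filter_not (s := (Finset.univ : Finset E))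
        (fun e => e ∈ S')
      rw [h1, Finset.card_univ] at this
      omega
    rw [h1, h2]
  have hcov : (Finset.univ : Finset (E → C)) ⊆
      I0.biUnion (fun i => Finset.univ.filter (fun φ : E → C => ∀ e ∈ S i, φ e ≠ t i e)) := by
    intro φ _
    obtain ⟨i, hi, hi'⟩ := hcon φ
    rw [Finset.mem_biUnion]
    exact ⟨i, hi, by simpa using hi'⟩
  have h1 := (Finset.card_le_card hcov).trans (Finset.card_biUnion_le_card_mul _ _ _ hbad)
  rw [Finset.card_univ, Fintype.card_fun] at h1
  have h2 : (Fintype.card C) ^ (Fintype.card E) =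
      (Fintype.card C) ^ m * (Fintype.card C) ^ (Fintype.card E - m) := by
    rw [← pow_add]; congr 1; omega
  rw [h2, ← mul_assoc] at h1
  have h3 : 0 < (Fintype.card C) ^ (Fintype.card E - m) := by
    have : 0 < Fintype.card C := Fintype.card_pos
    positivity
  have := Nat.mul_lt_mul_of_pos_right h h3
  omega

/-! ### The twisted structure -/

lemma lex_lt {a b K x y : ℕ} (h : a < b) (hx : x < K) : a * K + x < b * K + y := by
  have h1 : (a + 1) * K ≤ b * K := Nat.mul_le_mul_right _ h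
  have h2 : (a + 1) * K = a * K + K := by ring
  omega

lemma lex_inj {a b K x y : ℕ} (hx : x < K) (hy : y < K) (h : a * K + x = b * K + y) :
    a = b ∧ x = y := by
  rcases lt_trichotomy a b with h1 | h1 | h1
  · have := lex_lt (y := y) h1 hx; omega
  · subst h1; exact ⟨rfl, by omega⟩
  · have := lex_lt (y := x) h1 hy; omega

/-- Boolean to `ZMod 2`. -/
def bz (b : Bool) : ZMod 2 := if b then 1 else 0

/-- The bilinear form at gap `g`. -/
def cs {N : ℕ} {M P : Type} (φ : Fin N × Fin N → M × M) (g : Fin N)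
    (x y : (Fin N × M) ⊕ P → Bool) : ZMod 2 :=
  ∑ a : Fin N, ∑ b : Fin N, if a.val + b.val + 1 = 2 * g.val then
    bz (x (Sum.inl (a, (φ (g, a)).1))) * bz (y (Sum.inl (b, (φ (g, a)).2))) else 0

/-- The twisted structure. -/
def tw (h q : ℕ) {M : Type} (Q : Lvl M) (T K : ℕ) (hT : ∀ a, Q.τ a < T) (hK : ∀ a, Q.θ a < K)
    (hqK : q ≤ K) (φ : Fin (2 ^ h) × Fin (2 ^ h) → M × M) :
    Lvl ((Fin (2 ^ h) × M) ⊕ (Fin (2 ^ h) × Fin q)) where
  τ := Sum.elim (fun x => 2 ^ h * q + (x.1.val * T + Q.τ x.2))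
    (fun x => rev h x.1.val * q + x.2.val)
  θ := Sum.elim (fun x => (2 * x.1.val + 1) * K + Q.θ x.2) (fun x => (2 * x.1.val) * K + x.2.val)
  τ_inj := by
    rintro (⟨a, c⟩ | ⟨a, c⟩) (⟨b, d⟩ | ⟨b, d⟩) hh
    · simp only [Sum.elim_inl] at hh
      obtain ⟨h1, h2⟩ := lex_inj (hT c) (hT d) (Nat.add_left_cancel hh)
      rw [Fin.ext h1, Q.τ_inj h2]
    · simp only [Sum.elim_inl, Sum.elim_inr] at hh
      have := lex_lt (a := rev h b.val) (b := 2 ^ h) (K := q) (x := d.val) (y := 0)
        (rev_lt _ _) d.2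
      omega
    · simp only [Sum.elim_inl, Sum.elim_inr] at hh
      have := lex_lt (a := rev h a.val) (b := 2 ^ h) (K := q) (x := c.val) (y := 0)
        (rev_lt _ _) c.2
      omega
    · simp only [Sum.elim_inr] at hh
      obtain ⟨h1, h2⟩ := lex_inj c.2 d.2 hh
      rw [Fin.ext (rev_inj a.2 b.2 h1), Fin.ext h2]
  θ_inj := by
    rintro (⟨a, c⟩ | ⟨a, c⟩) (⟨b, d⟩ | ⟨b, d⟩) hh
    · simp only [Sum.elim_inl] at hh
      obtain ⟨h1, h2⟩ := lex_inj (hK c) (hK d) hh
      have h3 : a = b := Fin.ext (by omega)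
      rw [h3, Q.θ_inj h2]
    · simp only [Sum.elim_inl, Sum.elim_inr] at hh
      obtain ⟨h1, h2⟩ := lex_inj (hK c) (lt_of_lt_of_le d.2 hqK) hh
      omega
    · simp only [Sum.elim_inl, Sum.elim_inr] at hh
      obtain ⟨h1, h2⟩ := lex_inj (lt_of_lt_of_le c.2 hqK) (hK d) hh
      omega
    · simp only [Sum.elim_inr] at hh
      obtain ⟨h1, h2⟩ := lex_inj (lt_of_lt_of_le c.2 hqK) (lt_of_lt_of_le d.2 hqK) hh
      have h3 : a = b := Fin.ext (by omega)
      rw [h3, Fin.ext h2]
  col := fun ℓ x y => Sum.elim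
    (fun p : Fin (2 ^ h) × M => Q.col p.2 (fun m => x (Sum.inl (p.1, m)))
      (fun m => y (Sum.inl (p.1, m))))
    (fun g : Fin (2 ^ h) × Fin q => decide (cs φ g.1 x y = 1)) ℓ

lemma bz_add_self (b : Bool) : bz b + bz b = 0 := by
  cases b <;> decide

lemma zmod2_eq_of_decide {x y : ZMod 2} (h : decide (x = 1) = decide (y = 1)) : x = y := by
  revert x y
  decide

/-- the four-point identity -/
lemma cs_four {N : ℕ} {M P : Type} (φ : Fin N × Fin N → M × M) (g : Fin N)
    (x x' y y' : (Fin N × M) ⊕ P → Bool) :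
    cs φ g x y + cs φ g x' y + cs φ g x y' + cs φ g x' y' =
    ∑ a : Fin N, ∑ b : Fin N, if a.val + b.val + 1 = 2 * g.val then
      (bz (x (Sum.inl (a, (φ (g, a)).1))) + bz (x' (Sum.inl (a, (φ (g, a)).1)))) *
      (bz (y (Sum.inl (b, (φ (g, a)).2))) + bz (y' (Sum.inl (b, (φ (g, a)).2)))) else 0 := by
  unfold cs
  rw [← Finset.sum_add_distrib, ← Finset.sum_add_distrib, ← Finset.sum_add_distrib]
  apply Finset.sum_congr rfl
  intro a _
  rw [← Finset.sum_add_distrib, ← Finset.sum_add_distrib, ← Finset.sum_add_distrib]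
  apply Finset.sum_congr rfl
  intro b _
  split_ifs
  · ring
  · ring

/-- The conflict lemma. -/
lemma conflict {h q : ℕ} {M : Type} {Q : Lvl M} {T K : ℕ} {hT : ∀ a, Q.τ a < T}
    {hK : ∀ a, Q.θ a < K} {hqK : q ≤ K} {φ : Fin (2 ^ h) × Fin (2 ^ h) → M × M}
    {up : Bool} {s : ℕ → ((Fin (2 ^ h) × M) ⊕ (Fin (2 ^ h) × Fin q)) → Bool}
    {u : ℕ → ((Fin (2 ^ h) × M) ⊕ (Fin (2 ^ h) × Fin q))} {n : ℕ} {c : Bool}
    (hc : Chain (tw h q Q T K hT hK hqK φ) up s u n c)
    {i k m : ℕ} (hik : i < k) (hkm : k < m) (hmn : m < n)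
    {A B g : Fin (2 ^ h)} {a b : M} {j : Fin q}
    (h1 : u i = Sum.inl (A, a)) (h2 : u k = Sum.inr (g, j)) (h3 : u m = Sum.inl (B, b))
    (hAB : A.val + B.val + 1 = 2 * g.val)
    (hmin : ∀ k' g' j', i < k' → k' < m → u k' = Sum.inr (g', j') → rev h g.val ≤ rev h g'.val) :
    φ (g, A) ≠ (a, b) := by
  intro hφ
  set W := tw h q Q T K hT hK hqK φ with hW
  have hτT : ∀ (g' : Fin (2 ^ h)) (j' : Fin q),
      W.τ (Sum.inr (g', j')) = rev h g'.val * q + j'.val := fun _ _ => rfl
  have hτP : ∀ (p : Fin (2 ^ h)) (x : M),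
      W.τ (Sum.inl (p, x)) = 2 ^ h * q + (p.val * T + Q.τ x) := fun _ _ => rfl
  have four : ∀ α β, (α = i ∨ α = i + 1) → (β = m ∨ β = m + 1) →
      decide (cs φ g (s α) (s β) = 1) = c := by
    intro α β hα hβ
    obtain ⟨k', h4, h5, h6, h7⟩ := chain_Df W.τ_inj hc.step α β (by omega) (by omega)
    have h8 := h7 k (by omega) (by omega)
    rw [h2, hτT] at h8
    have hj := lex_lt (a := rev h g.val) (b := 2 ^ h) (K := q) (x := j.val) (y := 0)
      (rev_lt _ _) j.2
    rcases hk' : u k' with ⟨p, x⟩ | ⟨g', j'⟩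
    · rw [hk', hτP] at h8
      omega
    · rw [hk', hτT] at h8
      have h9 : k' ≠ i := by
        rintro rfl; rw [h1] at hk'; exact absurd hk' (by simp)
      have h10 : k' ≠ m := by
        rintro rfl; rw [h3] at hk'; exact absurd hk' (by simp)
      have h11 := hmin k' g' j' (by omega) (by omega) hk'
      have h12 : rev h g'.val ≤ rev h g.val := by
        by_contra hcon
        push Not at hcon
        have := lex_lt (a := rev h g.val) (b := rev h g'.val) (K := q) (x := j.val)
          (y := j'.val) hcon j.2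
        omega
      have h13 : g' = g := Fin.ext (rev_inj g'.2 g.2 (le_antisymm h12 h11))
      have h14 := hc.colr α β (u k') (by omega) (by omega) h6
      rw [hk', h13] at h14
      exact h14
  have e1 := four i m (Or.inl rfl) (Or.inl rfl)
  have e2 := four (i + 1) m (Or.inr rfl) (Or.inl rfl)
  have e3 := four i (m + 1) (Or.inl rfl) (Or.inr rfl)
  have e4 := four (i + 1) (m + 1) (Or.inr rfl) (Or.inr rfl)
  have f2 := zmod2_eq_of_decide (e2.trans e1.symm)
  have f3 := zmod2_eq_of_decide (e3.trans e1.symm)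
  have f4 := zmod2_eq_of_decide (e4.trans e1.symm)
  have hid := cs_four φ g (s i) (s (i + 1)) (s m) (s (m + 1))
  rw [f2, f3, f4] at hid
  have hz : ∀ z : ZMod 2, z + z + z + z = 0 := by decide
  rw [hz] at hid
  have s1 := hc.step i (by omega)
  have s2 := hc.step m (by omega)
  rw [h1] at s1
  rw [h3] at s2
  rw [Finset.sum_eq_single A, Finset.sum_eq_single B, if_pos hAB, hφ] at hid
  · simp only at hid
    rw [s1.1, s1.2.1, s2.1, s2.2.1] at hid
    exact absurd hid (by decide)
  · intro b' _ hb'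
    rw [if_neg]
    intro hcon
    exact hb' (Fin.ext (by omega))
  · intro hcon; exact absurd (Finset.mem_univ _) hcon
  · intro a' _ ha'
    apply Finset.sum_eq_zero
    intro b' _
    split_ifs with hab'
    swap
    · rfl
    rcases lt_trichotomy a'.val A.val with h4 | h4 | h4
    · have h5 : s i (Sum.inl (a', (φ (g, a')).1)) = s (i + 1) (Sum.inl (a', (φ (g, a')).1)) := by
        apply s1.2.2
        rw [hτP, hτP]
        have := lex_lt (y := Q.τ a) h4 (hT (φ (g, a')).1)
        omega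
      rw [h5, bz_add_self, zero_mul]
    · exact absurd (Fin.ext h4) ha'
    · have h4' : b'.val < B.val := by omega
      have h5 : s m (Sum.inl (b', (φ (g, a')).2)) = s (m + 1) (Sum.inl (b', (φ (g, a')).2)) := by
        apply s2.2.2
        rw [hτP, hτP]
        have := lex_lt (y := Q.τ b) h4' (hT (φ (g, a')).2)
        omega
      rw [h5, bz_add_self, mul_zero]
  · intro hcon; exact absurd (Finset.mem_univ _) hcon

end Pool.Agent.H39
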