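import Pool.Agent.H39.Twist

namespace Pool.Agent.H39

lemma chain_order {L : Type} {A : Lvl L} {up : Bool} {s : ℕ → L → Bool} {u : ℕ → L} {n : ℕ}
    {c : Bool} (hc : Chain A up s u n c) {i j : ℕ} (hi : i < n) (hj : j < n)
    (h : dir up (A.θ (u i)) (A.θ (u j))) : i < j := by
  rcases lt_trichotomy i j with h1 | h1 | h1
  · exact h1
  · subst h1; exact absurd h dir_irrefl
  · exact absurd (dir_trans h (hc.mono j i h1 hi)) dir_irrefl

lemma chain_u_inj {L : Type} {A : Lvl L} {up : Bool} {s : ℕ → L → Bool} {u : ℕ → L} {n : ℕ}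
    {c : Bool} (hc : Chain A up s u n c) {i j : ℕ} (hi : i < n) (hj : j < n)
    (h : u i = u j) : i = j := by
  rcases lt_trichotomy i j with h1 | h1 | h1
  · have := hc.mono i j h1 hj
    rw [h] at this; exact absurd this dir_irrefl
  · exact h1
  · have := hc.mono j i h1 hi
    rw [h] at this; exact absurd this dir_irrefl

/-- The window condition. -/
def Win (h : ℕ) (G : Finset (Fin (2 ^ h))) (g : Fin (2 ^ h)) (x y : ℕ) : Prop :=
  ∀ g' ∈ G, x < g'.val → g'.val ≤ y → rev h g.val ≤ rev h g'.val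

/-- The test pairs of a configuration. -/
def TP (h : ℕ) {M : Type} (up : Bool) (U : Finset (Fin (2 ^ h) × M)) (G : Finset (Fin (2 ^ h)))
    (e : Fin (2 ^ h) × Fin (2 ^ h)) : Prop :=
  e.1 ∈ G ∧ ∃ B : Fin (2 ^ h), e.2.val + B.val + 1 = 2 * e.1.val ∧
    (if up then e.2.val < e.1.val ∧ Win h G e.1 e.2.val B.val
      else e.1.val ≤ e.2.val ∧ Win h G e.1 B.val e.2.val) ∧
    (∃ a, (e.2, a) ∈ U) ∧ (∃ b, (B, b) ∈ U)

open Classical in
lemma tp_card (h : ℕ) {M : Type} (up : Bool) (U : Finset (Fin (2 ^ h) × M))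
    (G : Finset (Fin (2 ^ h))) (m : ℕ)
    (hm : m ≤ (gp (rev h) (G.map Fin.valEmbedding)
      ((Finset.univ.filter (fun p : Fin (2 ^ h) => ∀ a, (p, a) ∉ U)).map Fin.valEmbedding)
      0 (2 ^ h)).card) :
    m ≤ (Finset.univ.filter (fun e => TP h up U G e)).card := by
  refine hm.trans ?_
  have hpos : 0 < 2 ^ h := by positivity
  let toF : ℕ → Fin (2 ^ h) := fun x => ⟨x % 2 ^ h, Nat.mod_lt _ hpos⟩
  have htoF : ∀ x, x < 2 ^ h → (toF x).val = x := fun x hx => Nat.mod_eq_of_lt hx
  apply Finset.card_le_card_of_injOn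
    (fun x => (toF x.1, toF (if up then x.1 - x.2 else x.1 + x.2 - 1)))
  · rintro ⟨g, d⟩ hx
    simp only [gp, Finset.mem_coe, Finset.mem_filter, Finset.mem_product, Finset.mem_map,
      Finset.mem_range, Fin.valEmbedding_apply, Finset.mem_univ, true_and] at hx
    obtain ⟨⟨⟨g0, hg0, hg0'⟩, h1⟩, h2, h3, h4, h5, h6, h7⟩ := hx
    subst hg0'
    have hgv : toF g0.val = g0 := Fin.ext (htoF _ g0.2)
    have hlo : (toF (g0.val - d)).val = g0.val - d := htoF _ (by omega)
    have hhi : (toF (g0.val + d - 1)).val = g0.val + d - 1 := htoF _ (by omega)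
    have hw : Win h G g0 (g0.val - d) (g0.val + d - 1) := by
      intro g' hg' h8 h9
      exact h5 g'.val ⟨g', hg', rfl⟩ (by omega) (by omega)
    have ha : ∃ a, (toF (g0.val - d), a) ∈ U := by
      by_contra hcon
      push Not at hcon
      exact h6 ⟨_, hcon, hlo⟩
    have hb : ∃ a, (toF (g0.val + d - 1), a) ∈ U := by
      by_contra hcon
      push Not at hcon
      exact h7 ⟨_, hcon, hhi⟩
    simp only [Finset.mem_coe, Finset.mem_filter, Finset.mem_univ, true_and]
    cases up with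
    | true =>
      refine ⟨?_, toF (g0.val + d - 1), ?_, ?_, ?_, ?_⟩
      · show toF g0.val ∈ G
        rw [hgv]; exact hg0
      · show (toF (g0.val - d)).val + (toF (g0.val + d - 1)).val + 1 = 2 * (toF g0.val).val
        rw [hlo, hhi, hgv]; omega
      · show (toF (g0.val - d)).val < (toF g0.val).val ∧
          Win h G (toF g0.val) (toF (g0.val - d)).val (toF (g0.val + d - 1)).val
        rw [hlo, hhi, hgv]
        exact ⟨by omega, hw⟩
      · exact ha
      · exact hb
    | false =>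
      refine ⟨?_, toF (g0.val - d), ?_, ?_, ?_, ?_⟩
      · show toF g0.val ∈ G
        rw [hgv]; exact hg0
      · show (toF (g0.val + d - 1)).val + (toF (g0.val - d)).val + 1 = 2 * (toF g0.val).val
        rw [hlo, hhi, hgv]; omega
      · show (toF g0.val).val ≤ (toF (g0.val + d - 1)).val ∧
          Win h G (toF g0.val) (toF (g0.val - d)).val (toF (g0.val + d - 1)).val
        rw [hlo, hhi, hgv]
        exact ⟨by omega, hw⟩
      · exact hb
      · exact ha
  · rintro ⟨g, d⟩ hx ⟨g', d'⟩ hx' hee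
    simp only [gp, Finset.mem_coe, Finset.mem_filter, Finset.mem_product, Finset.mem_map,
      Finset.mem_range, Fin.valEmbedding_apply, Finset.mem_univ, true_and] at hx hx'
    obtain ⟨⟨⟨g0, hg0, hg0'⟩, h1⟩, h2, h3, h4, _⟩ := hx
    obtain ⟨⟨⟨g1, hg1, hg1'⟩, h1'⟩, h2', h3', h4', _⟩ := hx'
    simp only [Prod.mk.injEq] at hee
    obtain ⟨e1, e2⟩ := hee
    have f1 := congrArg Fin.val e1
    have f2 := congrArg Fin.val e2
    have l0 := g0.2
    have l1 := g1.2
    rw [htoF _ (by omega), htoF _ (by omega)] at f1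
    rw [htoF _ (by split_ifs <;> omega), htoF _ (by split_ifs <;> omega)] at f2
    rw [Prod.mk.injEq]
    split_ifs at f2 <;> omega

/-- Choice of the number of tests. -/
lemma exists_J (R : ℕ) (hR : 1 ≤ R) :
    ∃ J : ℕ, (R ^ 2 - 1) ^ J * 2 ^ (R + 2) ≤ (R ^ 2) ^ J := by
  have hR0 : (0 : ℝ) < R := by exact_mod_cast hR
  have hRR : (0 : ℝ) < (R : ℝ) ^ 2 := by positivity
  have hRR1 : (1 : ℝ) ≤ (R : ℝ) ^ 2 := by
    have : (1 : ℝ) ≤ R := by exact_mod_cast hR
    nlinarith
  set x : ℝ := ((R : ℝ) ^ 2 - 1) / (R : ℝ) ^ 2 with hx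
  have hx0 : 0 ≤ x := div_nonneg (by linarith) hRR.le
  have hx1 : x < 1 := by rw [hx, div_lt_one hRR]; linarith
  obtain ⟨J, hJ⟩ := exists_pow_lt_of_lt_one (show (0 : ℝ) < 1 / 2 ^ (R + 2) by positivity) hx1
  refine ⟨J, ?_⟩
  have h1 : ((R : ℝ) ^ 2 - 1) ^ J * 2 ^ (R + 2) ≤ ((R : ℝ) ^ 2) ^ J := by
    rw [hx, div_pow, div_lt_div_iff₀ (by positivity) (by positivity)] at hJ
    linarith
  have h2 : (((R ^ 2 - 1 : ℕ) : ℝ)) = (R : ℝ) ^ 2 - 1 := by
    rw [Nat.cast_sub (Nat.one_le_pow _ _ hR)]; push_cast; ring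
  rw [← h2] at h1
  exact_mod_cast h1

open Classical in
/-- The twisting lemma. -/
lemma twist {M : Type} [Fintype M] [Nonempty M] (Q : Lvl M) (f : ℕ) (hQ : Bdd Q f) (D q : ℕ)
    (hD : 1 ≤ D) (hq : 1 ≤ q) (hqf : 40 * D * q ≤ f) : ∃ h0, ∀ h, h0 ≤ h →
      Good (2 ^ h * Fintype.card M + 2 ^ h * q) (2 ^ h * f + 2 ^ h * q / D) := by
  obtain ⟨J, hJ⟩ := exists_J (Fintype.card M) Fintype.card_pos
  obtain ⟨H, hH⟩ := many_good D J hD
  refine ⟨max H 1, fun h hh => ?_⟩
  have hH' := hH h (le_trans (le_max_left _ _) hh)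
  have h1h : 1 ≤ h := le_trans (le_max_right _ _) hh
  have hN2 : 2 ≤ 2 ^ h := by
    calc 2 = 2 ^ 1 := by norm_num
      _ ≤ 2 ^ h := Nat.pow_le_pow_right (by norm_num) h1h
  set R := Fintype.card M with hRdef
  obtain ⟨T, hT⟩ := exists_bound Q.τ
  obtain ⟨K0, hK0⟩ := exists_bound Q.θ
  -- the tests
  let I0 : Finset (Bool × Finset (Fin (2 ^ h) × M) × Finset (Fin (2 ^ h))) :=
    Finset.univ.filter (fun i => 2 ^ h < D * i.2.2.card ∧
      40 * D * (Finset.univ.filter (fun p : Fin (2 ^ h) => ∀ a, (p, a) ∉ i.2.1)).card < 2 ^ h)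
  let S : Bool × Finset (Fin (2 ^ h) × M) × Finset (Fin (2 ^ h)) →
      Finset (Fin (2 ^ h) × Fin (2 ^ h)) :=
    fun i => Finset.univ.filter (fun e => TP h i.1 i.2.1 i.2.2 e)
  let Wt : Bool × Finset (Fin (2 ^ h) × M) × Finset (Fin (2 ^ h)) →
      Fin (2 ^ h) × Fin (2 ^ h) → M × M → Prop :=
    fun i e ab => (e.2, ab.1) ∈ i.2.1 ∧ ∃ B : Fin (2 ^ h), e.2.val + B.val + 1 = 2 * e.1.val ∧
      (B, ab.2) ∈ i.2.1
  let t : Bool × Finset (Fin (2 ^ h) × M) × Finset (Fin (2 ^ h)) →
      Fin (2 ^ h) × Fin (2 ^ h) → M × M :=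
    fun i e => if hw : ∃ ab, Wt i e ab then hw.choose else Classical.arbitrary _
  have ht : ∀ i e, e ∈ S i → Wt i e (t i e) := by
    intro i e he
    have he' : TP h i.1 i.2.1 i.2.2 e := by simpa [S] using he
    obtain ⟨_, B, h1, _, ⟨a, ha⟩, ⟨b, hb⟩⟩ := he'
    have hex : ∃ ab, Wt i e ab := ⟨(a, b), ha, B, h1, hb⟩
    show Wt i e (if hw : ∃ ab, Wt i e ab then hw.choose else Classical.arbitrary _)
    rw [dif_pos hex]
    exact hex.choose_spec
  have hcardS : ∀ i ∈ I0, J * 2 ^ h ≤ (S i).card := by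
    intro i hi
    simp only [I0, Finset.mem_filter, Finset.mem_univ, true_and] at hi
    apply tp_card
    apply hH'
    · intro g hg
      rw [Finset.mem_map] at hg
      obtain ⟨g0, _, rfl⟩ := hg
      exact g0.2
    · rw [Finset.card_map]; exact hi.1
    · rw [Finset.card_map]; convert hi.2
  have hcount : I0.card * (Fintype.card (M × M) - 1) ^ (J * 2 ^ h) <
      (Fintype.card (M × M)) ^ (J * 2 ^ h) := by
    have e1 : Fintype.card (M × M) = R ^ 2 := by rw [Fintype.card_prod, hRdef]; ring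
    rw [e1]
    have h1 : I0.card ≤ 2 * (2 ^ (2 ^ h * R) * 2 ^ (2 ^ h)) := by
      refine (Finset.card_le_univ _).trans ?_
      rw [Fintype.card_prod, Fintype.card_prod, Fintype.card_bool, Fintype.card_finset,
        Fintype.card_finset, Fintype.card_prod, Fintype.card_fin]
    have h2 : 2 * (2 ^ (2 ^ h * R) * 2 ^ (2 ^ h)) < 2 ^ ((R + 2) * 2 ^ h) := by
      rw [← pow_add, ← pow_succ']
      apply Nat.pow_lt_pow_right (by norm_num)
      nlinarith
    have h3 : (R ^ 2 - 1) ^ (J * 2 ^ h) * 2 ^ ((R + 2) * 2 ^ h) ≤ (R ^ 2) ^ (J * 2 ^ h) := by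
      have := Nat.pow_le_pow_left hJ (2 ^ h)
      rw [mul_pow, ← pow_mul, ← pow_mul, ← pow_mul] at this
      exact this
    rcases Nat.eq_zero_or_pos ((R ^ 2 - 1) ^ (J * 2 ^ h)) with h4 | h4
    · rw [h4, mul_zero]
      have : 0 < R := Fintype.card_pos
      positivity
    · have h5 : I0.card * (R ^ 2 - 1) ^ (J * 2 ^ h) <
          2 ^ ((R + 2) * 2 ^ h) * (R ^ 2 - 1) ^ (J * 2 ^ h) :=
        Nat.mul_lt_mul_of_pos_right (lt_of_le_of_lt h1 h2) h4
      linarith
  obtain ⟨φ, hφ⟩ := exists_hit I0 S t (J * 2 ^ h) hcardS hcount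
  set K := max K0 q with hKdef
  have hK : ∀ a, Q.θ a < K := fun a => lt_of_lt_of_le (hK0 a) (le_max_left _ _)
  have hqK : q ≤ K := le_max_right _ _
  refine ⟨_, inferInstance, tw h q Q T K hT hK hqK φ, ?_, ?_⟩
  · rw [Fintype.card_sum, Fintype.card_prod, Fintype.card_prod, Fintype.card_fin,
      Fintype.card_fin]
  intro up s u n c hc
  by_contra hn
  push Not at hn
  set W := tw h q Q T K hT hK hqK φ with hW
  have hθT : ∀ (g' : Fin (2 ^ h)) (j' : Fin q),
      W.θ (Sum.inr (g', j')) = (2 * g'.val) * K + j'.val := fun _ _ => rfl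
  have hθP : ∀ (p : Fin (2 ^ h)) (x : M),
      W.θ (Sum.inl (p, x)) = (2 * p.val + 1) * K + Q.θ x := fun _ _ => rfl
  let U : Finset (Fin (2 ^ h) × M) := Finset.univ.filter (fun x => ∃ i < n, u i = Sum.inl x)
  let G : Finset (Fin (2 ^ h)) :=
    Finset.univ.filter (fun g => ∃ i < n, ∃ j, u i = Sum.inr (g, j))
  let Z : Finset (Fin (2 ^ h)) := Finset.univ.filter (fun p : Fin (2 ^ h) => ∀ a, (p, a) ∉ U)
  -- block counts
  have hblock : ∀ p : Fin (2 ^ h),
      ((Finset.range n).filter (fun i => ∃ a, u i = Sum.inl (p, a))).card ≤ f := by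
    intro p
    apply block W Q f hQ (fun m => Sum.inl (p, m)) _ _ _ _ hc
    · intro i hi
      simp only [Finset.mem_filter, Finset.mem_range] at hi
      exact ⟨hi.1, hi.2.imp fun a ha => ha.symm⟩
    · intro a b hab
      show 2 ^ h * q + (p.val * T + Q.τ a) < 2 ^ h * q + (p.val * T + Q.τ b)
      omega
    · intro a b hab
      rw [hθP, hθP] at hab
      omega
    · intro a b ℓ hl1 hl2
      rcases ℓ with ⟨p', x⟩ | ⟨g', j'⟩
      · rw [hθP, hθP] at hl1 hl2
        have h5 : ¬ (2 * p'.val + 1 < 2 * p.val + 1) := fun h6 => by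
          have := lex_lt (K := K) (y := Q.θ a) h6 (hK x); omega
        have h7 : ¬ (2 * p.val + 1 < 2 * p'.val + 1) := fun h6 => by
          have := lex_lt (K := K) (y := Q.θ x) h6 (hK b); omega
        have h8 : p = p' := Fin.ext (by omega)
        exact ⟨x, by rw [h8]⟩
      · exfalso
        rw [hθP, hθT] at hl1
        rw [hθT, hθP] at hl2
        have h5 : ¬ (2 * g'.val < 2 * p.val + 1) := fun h6 => by
          have := lex_lt (K := K) (y := Q.θ a) h6 (lt_of_lt_of_le j'.2 hqK); omega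
        have h7 : ¬ (2 * p.val + 1 < 2 * g'.val) := fun h6 => by
          have := lex_lt (K := K) (y := j'.val) h6 (hK b); omega
        omega
    · intro m x y
      rfl
  have hgap : ∀ g : Fin (2 ^ h),
      ((Finset.range n).filter (fun i => ∃ j, u i = Sum.inr (g, j))).card ≤ q := by
    intro g
    have hq0 : 0 < q := hq
    let pj : ((Fin (2 ^ h) × M) ⊕ (Fin (2 ^ h) × Fin q)) → Fin q :=
      Sum.elim (fun _ => ⟨0, hq0⟩) (fun x => x.2)
    have hle : ((Finset.range n).filter (fun i => ∃ j, u i = Sum.inr (g, j))).card ≤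
        (Finset.univ : Finset (Fin q)).card := by
      apply Finset.card_le_card_of_injOn (fun i => pj (u i))
      · intro i _; exact Finset.mem_univ _
      intro i hi i' hi' hee
      simp only [Finset.coe_filter, Finset.mem_range, Set.mem_ofPred_eq] at hi hi'
      obtain ⟨hi1, j, hj⟩ := hi
      obtain ⟨hi1', j', hj'⟩ := hi'
      apply chain_u_inj hc hi1 hi1'
      have h5 : pj (u i) = pj (u i') := hee
      rw [hj, hj'] at h5
      have h6 : j = j' := h5
      rw [hj, hj', h6]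
    rwa [Finset.card_univ, Fintype.card_fin] at hle
  have hcover : Finset.range n ⊆
      ((Finset.univ \ Z).biUnion (fun p => (Finset.range n).filter
        (fun i => ∃ a, u i = Sum.inl (p, a)))) ∪
      (G.biUnion (fun g => (Finset.range n).filter (fun i => ∃ j, u i = Sum.inr (g, j)))) := by
    intro i hi
    rw [Finset.mem_range] at hi
    rw [Finset.mem_union, Finset.mem_biUnion, Finset.mem_biUnion]
    rcases hu : u i with ⟨p, x⟩ | ⟨g, j⟩
    · left
      refine ⟨p, ?_, ?_⟩
      · simp only [Z, U, Finset.mem_sdiff, Finset.mem_filter, Finset.mem_univ, true_and]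
        intro hcon
        exact hcon x ⟨i, hi, hu⟩
      · simp only [Finset.mem_filter, Finset.mem_range]
        exact ⟨hi, x, hu⟩
    · right
      refine ⟨g, ?_, ?_⟩
      · simp only [G, Finset.mem_filter, Finset.mem_univ, true_and]
        exact ⟨i, hi, j, hu⟩
      · simp only [Finset.mem_filter, Finset.mem_range]
        exact ⟨hi, j, hu⟩
  have hn1 : n ≤ (Finset.univ \ Z).card * f + G.card * q := by
    have h5 := Finset.card_le_card hcover
    rw [Finset.card_range] at h5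
    have h6 := Finset.card_union_le ((Finset.univ \ Z).biUnion (fun p => (Finset.range n).filter
        (fun i => ∃ a, u i = Sum.inl (p, a)))) (G.biUnion (fun g => (Finset.range n).filter
        (fun i => ∃ j, u i = Sum.inr (g, j))))
    have h7 := Finset.card_biUnion_le_card_mul (Finset.univ \ Z) (fun p => (Finset.range n).filter
        (fun i => ∃ a, u i = Sum.inl (p, a))) f (fun p _ => hblock p)
    have h8 := Finset.card_biUnion_le_card_mul G (fun g => (Finset.range n).filter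
        (fun i => ∃ j, u i = Sum.inr (g, j))) q (fun g _ => hgap g)
    omega
  have hZc : (Finset.univ \ Z).card + Z.card = 2 ^ h := by
    have := Finset.card_sdiff_add_card_eq_card (Finset.subset_univ Z)
    rw [Finset.card_univ, Fintype.card_fin] at this
    exact this
  have hGc : G.card ≤ 2 ^ h := by
    have := Finset.card_le_univ G
    rwa [Fintype.card_fin] at this
  have hdiv : 2 ^ h * q < (2 ^ h * q / D + 1) * D := by
    have := Nat.lt_div_mul_add (a := 2 ^ h * q) (b := D) (by omega)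
    linarith
  have hG1 : 2 ^ h < D * G.card := by
    have h5 : (Finset.univ \ Z).card * f ≤ 2 ^ h * f := Nat.mul_le_mul_right _ (by omega)
    have h6 : 2 ^ h * q / D + 1 ≤ G.card * q := by omega
    have h7 : (2 ^ h * q / D + 1) * D ≤ G.card * q * D := Nat.mul_le_mul_right _ h6
    have h8 : 2 ^ h * q < (D * G.card) * q := by
      calc 2 ^ h * q < (2 ^ h * q / D + 1) * D := hdiv
        _ ≤ G.card * q * D := h7
        _ = (D * G.card) * q := by ring
    exact Nat.lt_of_mul_lt_mul_right h8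
  have hZ1 : 40 * D * Z.card < 2 ^ h := by
    have h5 : G.card * q ≤ 2 ^ h * q := Nat.mul_le_mul_right _ hGc
    have h6 : 2 ^ h * f < (Finset.univ \ Z).card * f + 2 ^ h * q := by
      have : 0 ≤ 2 ^ h * q / D := Nat.zero_le _
      omega
    have h7 : 2 ^ h * f = (Finset.univ \ Z).card * f + Z.card * f := by
      rw [← add_mul, hZc]
    have h8 : Z.card * f < 2 ^ h * q := by omega
    have h9 : Z.card * (40 * D * q) ≤ Z.card * f := Nat.mul_le_mul_left _ hqf
    have h10 : (40 * D * Z.card) * q < 2 ^ h * q := by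
      calc (40 * D * Z.card) * q = Z.card * (40 * D * q) := by ring
        _ < 2 ^ h * q := lt_of_le_of_lt h9 h8
    exact Nat.lt_of_mul_lt_mul_right h10
  have hmem : (up, U, G) ∈ I0 := by
    simp only [I0, Finset.mem_filter, Finset.mem_univ, true_and]
    exact ⟨hG1, hZ1⟩
  obtain ⟨⟨g, A⟩, heS, heφ⟩ := hφ _ hmem
  have hTP : TP h up U G (g, A) := by simpa [S] using heS
  have hWt := ht _ _ heS
  rw [← heφ] at hWt
  obtain ⟨hgG, B, hAB, hdirn, _, _⟩ := hTP
  obtain ⟨hA, B', hAB', hB⟩ := hWt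
  have hBB : B' = B := by
    apply Fin.ext
    have h5 : A.val + B.val + 1 = 2 * g.val := hAB
    have h6 : A.val + B'.val + 1 = 2 * g.val := hAB'
    omega
  rw [hBB] at hB
  have hAB2 : A.val + B.val + 1 = 2 * g.val := hAB
  obtain ⟨a, ha⟩ : ∃ a, a = (φ (g, A)).1 := ⟨_, rfl⟩
  obtain ⟨b, hb⟩ : ∃ b, b = (φ (g, A)).2 := ⟨_, rfl⟩
  have hA' : (A, a) ∈ U := by rw [ha]; exact hA
  have hB' : (B, b) ∈ U := by rw [hb]; exact hB
  simp only [U, Finset.mem_filter, Finset.mem_univ, true_and] at hA' hB'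
  obtain ⟨i, hin, hi⟩ := hA'
  obtain ⟨m, hmn, hm⟩ := hB'
  have hgG' : g ∈ G := hgG
  simp only [G, Finset.mem_filter, Finset.mem_univ, true_and] at hgG'
  obtain ⟨k, hkn, j, hk⟩ := hgG'
  -- slopes comparison
  have cmp1 : ∀ (p : Fin (2 ^ h)) (x : M) (g' : Fin (2 ^ h)) (j' : Fin q), p.val < g'.val →
      W.θ (Sum.inl (p, x)) < W.θ (Sum.inr (g', j')) := by
    intro p x g' j' hpg
    rw [hθP, hθT]
    exact lex_lt (by omega) (hK x)
  have cmp2 : ∀ (p : Fin (2 ^ h)) (x : M) (g' : Fin (2 ^ h)) (j' : Fin q), g'.val ≤ p.val →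
      W.θ (Sum.inr (g', j')) < W.θ (Sum.inl (p, x)) := by
    intro p x g' j' hpg
    rw [hθP, hθT]
    exact lex_lt (by omega) (lt_of_lt_of_le j'.2 hqK)
  cases up with
  | true =>
    have hd : A.val < g.val ∧ Win h G g A.val B.val := by simpa using hdirn
    have hik : i < k := chain_order hc hin hkn (by
      rw [hi, hk]; exact cmp1 _ _ _ _ hd.1)
    have hkm : k < m := chain_order hc hkn hmn (by
      rw [hk, hm]; exact cmp2 _ _ _ _ (by omega))
    apply conflict hc hik hkm hmn hi hk hm hAB2 _ (by rw [ha, hb])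
    intro k' g' j' h5 h6 h7
    apply hd.2 g'
    · simp only [G, Finset.mem_filter, Finset.mem_univ, true_and]
      exact ⟨k', by omega, j', h7⟩
    · by_contra hcon
      have h8 := cmp2 A a g' j' (by omega)
      have h9 := hc.mono i k' h5 (by omega)
      rw [hi, h7] at h9
      have h10 : W.θ (Sum.inl (A, a)) < W.θ (Sum.inr (g', j')) := h9
      omega
    · by_contra hcon
      have h8 := cmp1 B b g' j' (by omega)
      have h9 := hc.mono k' m h6 hmn
      rw [hm, h7] at h9
      have h10 : W.θ (Sum.inr (g', j')) < W.θ (Sum.inl (B, b)) := h9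
      omega
  | false =>
    have hd : g.val ≤ A.val ∧ Win h G g B.val A.val := by simpa using hdirn
    have hik : i < k := chain_order hc hin hkn (by
      rw [hi, hk]; exact cmp2 _ _ _ _ hd.1)
    have hkm : k < m := chain_order hc hkn hmn (by
      rw [hk, hm]; exact cmp1 _ _ _ _ (by omega))
    apply conflict hc hik hkm hmn hi hk hm hAB2 _ (by rw [ha, hb])
    intro k' g' j' h5 h6 h7
    apply hd.2 g'
    · simp only [G, Finset.mem_filter, Finset.mem_univ, true_and]
      exact ⟨k', by omega, j', h7⟩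
    · by_contra hcon
      have h8 := cmp2 B b g' j' (by omega)
      have h9 := hc.mono k' m h6 hmn
      rw [hm, h7] at h9
      have h10 : W.θ (Sum.inl (B, b)) < W.θ (Sum.inr (g', j')) := h9
      omega
    · by_contra hcon
      have h8 := cmp1 A a g' j' (by omega)
      have h9 := hc.mono i k' h5 (by omega)
      rw [hi, h7] at h9
      have h10 : W.θ (Sum.inr (g', j')) < W.θ (Sum.inl (A, a)) := h9
      omega

end Pool.Agent.H39
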